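import Mathlib
import Pool.Agent.H76.S.Last
import Pool.Agent.H96.N1.Base
import Pool.Agent.H60.N1.Ends
import Pool.Agent.H33.N1.Cone

namespace Pool.Agent.H48.CYN

section SBase

/-- additive maps -/
def Add {A B : Type} [AddCommGroup A] [AddCommGroup B] (f : A → B) : Prop :=
  ∀ x y, f (x + y) = f x + f y

/-!
`Y` is a smooth simply connected projective threefold with trivial canonical class, `P` its Picard
group, `H` a very ample class and `S = S_j` a very general member of `|(j + 1) H|`, a smooth simply
connected surface. These data are used to prove: if `x` is nef, not zero and some `H^i(Y, x)` is not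
zero, then `x` is semiample.
-/

/-- The data of the threefold `Y`. -/
structure Shape (P : Type) [AddCommGroup P] where
  /-- the Picard group of `S` -/
  G : ℕ → Type
  [grpG : ∀ j, AddCommGroup (G j)]
  /-- locally free sheaves of rank two on `Y` and on `S` -/
  BY : Type
  B : ℕ → Type
  /-- the intersection form -/
  T : P → P → P → ℤ
  /-- the degree of the second Chern class of `Y` -/
  c : P → ℤ
  /-- the dimension of `H^i(Y, x)` -/
  h : Fin 4 → P → ℕ
  /-- nef classes -/
  Nef : P → Prop
  /-- semiample classes -/
  SA : P → Prop
  /-- a very ample class -/
  H : P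
  /-- the first Chern class -/
  c1 : BY → P
  /-- the degree `c_2(E).H` -/
  c2H : BY → ℤ
  /-- slope stability with respect to `H` -/
  Stable : BY → Prop
  /-- restriction to `S` -/
  res : ∀ j, P → G j
  resB : ∀ j, BY → B j
  /-- the intersection form of `S` -/
  I : ∀ j, G j → G j → ℤ
  /-- effective classes of `S` -/
  Eff : ∀ j, G j → Prop
  /-- the second Chern class of a sheaf on `S` -/
  c2 : ∀ j, B j → ℤ
  /-- `Sub j E N F w`: `c_1(E) = N` and there is an exact sequence `0 → O(F) → E → I_W(N - F) → 0` on
  `S`, `W` of length `w` -/
  Sub : ∀ j, B j → G j → G j → ℕ → Prop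

attribute [instance] Shape.grpG

/-- Divisors on the surfaces `S`. -/
structure Shape.Surfaces {P : Type} [AddCommGroup P] (Y : Shape P) : Prop where
  add_res : ∀ j, Add (Y.res j)
  form : ∀ j x y, Y.I j (Y.res j x) (Y.res j y) = (j + 1) * Y.T Y.H x y
  /-- Lefschetz theorem: the restriction is injective, its cokernel is torsion free -/
  inj : ∀ j y, Y.res j y = 0 → y = 0
  sat : ∀ j (k : ℤ) z y, k ≠ 0 → k • z = Y.res j y → ∃ y', z = Y.res j y'
  add_I : ∀ j x, Add (Y.I j x)
  symm : ∀ j x y, Y.I j x y = Y.I j y x
  /-- Hodge index theorem; `S` is simply connected -/
  index : ∀ j F, Y.I j (Y.res j Y.H) F = 0 → 0 ≤ Y.I j F F → F = 0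
  nef_eff : ∀ j x F, Y.Nef x → Y.Eff j F → 0 ≤ Y.I j (Y.res j x) F
  /-- `H^1(Y, O(y - (j + 1) H)) = 0` for large `j` (Serre) -/
  lift : ∀ y, ∃ j0 : ℕ, ∀ j, j0 ≤ j → Y.Eff j (Y.res j y) → Y.h 0 y ≠ 0
  /-- Chern classes of the sheaves in the exact sequence -/
  chern : ∀ j E N F w, Y.Sub j E N F w → Y.c2 j E = Y.I j F (N - F) + w

/-- Line bundles on `Y`. -/
structure Shape.Lines {P : Type} [AddCommGroup P] (Y : Shape P) : Prop where
  add_T : ∀ x y, Add (Y.T x y)
  add_c : Add Y.c
  symm12 : ∀ x y z, Y.T x y z = Y.T y x z
  symm23 : ∀ x y z, Y.T x y z = Y.T x z y
  nef_H : Y.Nef Y.H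
  nef_mul : ∀ (k : ℤ) x, 0 < k → (Y.Nef (k • x) ↔ Y.Nef x)
  sa_mul : ∀ (k : ℤ) x, 0 < k → (Y.SA (k • x) ↔ Y.SA x)
  sa_zero : Y.SA 0
  /-- intersection numbers of nef classes are not negative -/
  nonneg : ∀ x y z, Y.Nef x → Y.Nef y → Y.Nef z → 0 ≤ Y.T x y z
  /-- Miyaoka -/
  miyaoka : ∀ x, Y.Nef x → 0 ≤ Y.c x

/-- Cohomology of line bundles on `Y`. -/
structure Shape.Cohomology {P : Type} [AddCommGroup P] (Y : Shape P) : Prop where
  /-- Riemann-Roch theorem -/
  rr : ∀ x, 12 * ((Y.h 0 x : ℤ) - Y.h 1 x + Y.h 2 x - Y.h 3 x) = 2 * Y.T x x x + Y.c x
  /-- Serre duality -/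
  serre : ∀ i x, Y.h i (-x) = Y.h (Fin.rev i) x
  h0_neg : ∀ x, Y.Nef x → x ≠ 0 → Y.h 0 (-x) = 0
  h0_mul : ∀ (k : ℤ) x, 0 < k → Y.h 0 x ≠ 0 → Y.h 0 (k • x) ≠ 0
  /-- Kawamata-Viehweg vanishing theorem -/
  kv : ∀ x, Y.Nef x → Y.T Y.H x x ≠ 0 → Y.h 2 x = 0
  /-- Keel, Matsuki and McKernan: effective nef classes -/
  kmm : ∀ x, Y.Nef x → Y.h 0 x ≠ 0 → Y.SA x

/-- Vector bundles of rank two on `Y`. -/
structure Shape.Bundles {P : Type} [AddCommGroup P] (Y : Shape P) : Prop where
  c2_res : ∀ j E, Y.c2 j (Y.resB j E) = (j + 1) * Y.c2H E
  /-- Bogomolov, Donaldson, Uhlenbeck and Yau; in the case of equality `E` is projectively flat, hence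
  `End E` is trivial, because `Y` is simply connected, and `E` is not simple -/
  bog : ∀ E, Y.Stable E → Y.T Y.H (Y.c1 E) (Y.c1 E) < 4 * Y.c2H E
  /-- the restriction of a destabilising subsheaf of rank one to `S`, saturated -/
  unstable : ∀ E, ¬ Y.Stable E → ∀ j, ∃ F w, Y.Sub j (Y.resB j E) (Y.res j (Y.c1 E)) F w ∧
    Y.I j (Y.res j Y.H) (Y.res j (Y.c1 E)) ≤ 2 * Y.I j (Y.res j Y.H) F
  /-- a nonzero element of `H^1(Y, -x)` is a nonsplit extension `E` of `O(x)` by `O`; its restriction
  to `S` is not split (Kodaira: `H^1(Y, -x - (j + 1) H) = 0`); a subsheaf `O(F)` of positive degree maps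
  to `O(x)`, this map is not zero and not an isomorphism -/
  ext : ∀ x, Y.Nef x → Y.h 1 (-x) ≠ 0 → ∃ E, Y.c1 E = x ∧ Y.c2H E = 0 ∧
    ∀ j F w, Y.Sub j (Y.resB j E) (Y.res j x) F w → 0 < Y.I j (Y.res j Y.H) F →
      Y.Eff j (Y.res j x - F) ∧ Y.res j x ≠ F

/-- A smooth simply connected projective threefold with trivial canonical class. -/
structure CY (P : Type) [AddCommGroup P] extends Shape P where
  surfaces : toShape.Surfaces
  lines : toShape.Lines
  coh : toShape.Cohomology
  bundles : toShape.Bundles

end SBase

/-! ## Interior -/

section SInterior

/-- The interior points `p` of `T`, the points over the moduli space of the smooth deformations of `G`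
polarised by `A`: the fibre `X_p` is smooth. `Nef' p L`: the class `L` is nef on `X_p`. The intersection
form of the smooth fibres is the form of `G`. -/
structure Interior {P : Type} [AddCommGroup P] (G : CY P) (B : Type) (Inn : B → Prop)
    (Nef' : B → P → Prop) where
  /-- the polarisation; it is ample on all the smooth fibres -/
  A : P
  /-- only finitely many points are not interior -/
  bdry : {p : B | ¬ Inn p}.Finite
  /-- `Ruled p E l` : the fibre `X_p` contains a surface `E` ruled over a curve of positive genus
  with general fibre `l`, which does not deform to the general fibres -/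
  Ruled : B → P → (P → ℤ) → Prop
  /-- the degree of curves -/
  add : ∀ p E l, Ruled p E l → Add l
  /-- Wilson: the nef cone jumps only through such surfaces -/
  wilson : ∀ p L, Inn p → G.Nef L → ¬ Nef' p L → ∃ E l, Ruled p E l ∧ l L < 0
  /-- a surface has positive degree -/
  pos : ∀ p E l, Ruled p E l → 0 < G.T A A E
  /-- flop of the total space along `E` and semicontinuity: `L + (L.l) E` is pseudoeffective on
  `X_p`, and a pseudoeffective class has nonnegative degree -/
  pseff : ∀ p L E l, Inn p → G.Nef L → Ruled p E l → l L < 0 → 0 ≤ G.T A A (L + l L • E)
  /-- boundedness of the Chow variety: surfaces of bounded degree which do not deform to the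
  general fibres lie over finitely many points -/
  chow : ∀ n : ℤ, {p | Inn p ∧ ∃ E l, Ruled p E l ∧ G.T A A E ≤ n}.Finite

end SInterior

section STerm

/-!
# MP_5ee2d0_ag: termination over one point

`Δ` is the local ring of a point of the curve `T`;
`YY_0 → Δ` is projective, `YY_0` is `Q`-factorial and terminal of relative dimension three, its
canonical class is trivial, the special fibre `F_0 = Σ V_i` is reduced and `(YY_0, F_0)` is log
canonical. `L` is an integral class which is nef on the generic fibre, `s_i` are real numbers, `H` is
nef and big, `N = L - Σ s_i V_i`, and `N + d H` is a limit of movable classes for all `d > 0`.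

On the generic fibre `N + d H` is nef, so the locus of each step lies in the special fibre. The steps of
the minimal model program for `N + d H`, `d` decreasing to zero, are small and trivial
for `K` (flops), all `YY_j` are `Q`-factorial terminal, and `(YY_j, F_j)` is log canonical. We show that
there are only finitely many steps. The proof looks at the prime divisors `E` over `YY_j` with
discrepancy one: the blow up of a surface `G` of `YY_j` is such an `E` since a terminal variety is
smooth in codimension two. As long as its centre is a surface, `E` can only lose integral multiples of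
the `1` and `s_i`; and almost all of them lose less than the smallest positive number of this kind.
So after finitely many steps no surface is created, and the classical argument of Kawamata, Matsuda and
Matsuki applies.
-/

open Filter Topology

/-- An infinite sequence of steps `YY_0 ⇢ YY_1 ⇢ ...`. -/
structure Run where
  /-- the threshold of step `j`: it is trivial on `N + d_j H` and negative on `N` -/
  d : ℕ → ℝ
  pos : ∀ j, 0 < d j
  anti : Antitone d
  /-- Birkar, Cascini, Hacon, McKernan: `N + d H` is big, so above a positive number there are only
  finitely many thresholds -/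
  lim : Tendsto d atTop (𝓝 0)
  /-- the components `V_i` of the special fibre and their coefficients in `N` -/
  I : Type
  [fin : Fintype I]
  s : I → ℝ
  /-- the exceptional prime divisors over `YY_j` with centre in `F_j` and discrepancy one; they are the
  same for all `j` since the steps are small and trivial for `K` -/
  A : Type
  /-- the centre of `E` on `YY_j` is a surface -/
  Surf : ℕ → A → Prop
  /-- the centre of `E` on `YY_j` lies in the locus of step `j`; equivalently, its centre on
  `YY_(j+1)` lies in the locus created by the step -/
  Inv : ℕ → A → Prop
  /-- the multiplicities along `E` of the pull backs of (the strict transforms on `YY_j` of) one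
  integral divisor in the class `L`, of the `V_i`, and of a divisor in the class `H` -/
  ordL : ℕ → A → ℝ
  ordV : ℕ → A → I → ℝ
  ordH : ℕ → A → ℝ
  /-- a terminal variety is smooth in codimension two, so divisors are Cartier at the general point of
  a surface -/
  intL : ∀ j E, Surf j E → ∃ z : ℤ, ordL j E = z
  /-- the log discrepancy of `E` for `(YY_j, F_j)` is `2 - Σ ord_E(V_i) ≥ 0` -/
  intV : ∀ j E i, Surf j E → ∃ z : ℤ, ordV j E i = z ∧ 0 ≤ z ∧ z ≤ 2
  /-- negativity lemma: `p^*N_j - q^*N_(j+1)` is effective and its support is the preimage of the locus
  of the step -/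
  drop : ∀ j E, ordL (j + 1) E - ∑ i, s i * ordV (j + 1) E i ≤ ordL j E - ∑ i, s i * ordV j E i
  drop_lt : ∀ j E, Inv j E →
    ordL (j + 1) E - ∑ i, s i * ordV (j + 1) E i < ordL j E - ∑ i, s i * ordV j E i
  /-- the step is trivial on `N + d_j H` -/
  triv : ∀ j E, ordL (j + 1) E - ∑ i, s i * ordV (j + 1) E i + d j * ordH (j + 1) E =
    ordL j E - ∑ i, s i * ordV j E i + d j * ordH j E
  /-- outside its locus the step is an isomorphism -/
  keep : ∀ j E, ¬ Inv j E → Surf j E → Surf (j + 1) E
  /-- Let `W` be a log resolution of `YY_0`, an isomorphism over the regular locus, with a divisor as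
  exceptional locus. The discrepancies of the exceptional divisors of `W` are positive integers, so a
  divisor which is exceptional over `W` has discrepancy at least two if its centre lies in the
  exceptional locus, and also if it is a centre of codimension at least three in a regular point. -/
  off : {E | ¬ Surf 0 E}.Finite
  /-- the centre of `E` on `YY_0` lies in `V_i` -/
  On : A → I → Prop
  on : ∀ E, ∃ i, On E i
  /-- the degrees of `N_0` and of `H_0` on `V_i`, with respect to the square of a very ample divisor of
  `YY_0` -/
  n : I → ℝ
  h : I → ℝ
  /-- `M = N_j + d_j H_j` is nef on `YY_j`, so its strict transform on `YY_0` is a limit of classes of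
  effective divisors which do not contain `V_i` and the degree of which on `V_i` is at least the sum of
  their multiplicities along the surfaces in `V_i` (surfaces have degree at least one). The
  multiplicities are the coefficients of the pull back of `N_0 + d_j H_0` minus the pull back of `M`. -/
  bound : ∀ i j (S : Finset A), (∀ E ∈ S, Surf 0 E ∧ On E i) →
    ∑ E ∈ S, ((ordL 0 E - ∑ k, s k * ordV 0 E k + d j * ordH 0 E) -
      (ordL j E - ∑ k, s k * ordV j E k + d j * ordH j E)) ≤ n i + d j * h i
  /-- Zariski's lemma: on a resolution `W` of `YY_0` on which `E` is a divisor, the pull back of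
  `N_0 + d_j H_0` minus the (push forward to `W` of the) pull back of `M` has nonnegative coefficients,
  which are zero for the `V_i`, and `M.Γ.A^2 ≥ 0` for the components `Γ` of the connected special fibre
  of `W` and an ample divisor `A` of `W` -/
  zariski : ∀ E, ∃ c : ℝ, ∀ j, ((ordL 0 E - ∑ i, s i * ordV 0 E i + d j * ordH 0 E) -
      (ordL j E - ∑ i, s i * ordV j E i + d j * ordH j E)) ≤ c
  /-- the dimension of the span of the classes of surfaces in `H_4(F_j, ℚ)` -/
  rk : ℕ → ℕ
  /-- Kawamata, Matsuda, Matsuki 1987, 5-1-15 to 5-1-17, and Matsuki 1991 for flops: if the locus created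
  by step `j` in `YY_(j+1)` contains no surface then the locus of the step contains a surface, and the
  dimension drops. If it contains a surface `G`, let `E` be the blow up of `G`. -/
  kmm : ∀ j, (∀ E, Inv j E → ¬ Surf (j + 1) E) → rk (j + 1) < rk j

attribute [instance] Run.fin

end STerm

section SNefModel

/-!
# MP_5ee2d0_ag: a nef class of the generic fibre has a nef extension on some model

The models `XX → Δ`, `Δ` the local ring of a point of the curve `T`, are projective, `Q`-factorial
and terminal with trivial canonical class, the special fibre `Σ V_i` is reduced and `(XX, Σ V_i)` is log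
canonical. There is no other assumption on the number of the components, on their intersections or on
the monodromy.
-/

open Filter Topology

/-- The models over the local ring of one point `p` of `T`. -/
structure Germ (P Lam : Type) [AddCommGroup P] [AddCommGroup Lam] where
  /-- the small modifications of one model which are isomorphisms on the generic fibre -/
  Mo : Type
  /-- the restriction to `X_t` -/
  rho : Lam →+ P
  /-- nef over the base -/
  Nef : Mo → Lam → Prop
  /-- Cartier -/
  Car : Mo → Lam → Prop

/-- Movable and nef classes of the models over the local ring of one point. `N` is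
the space of the real classes of divisors up to numerical equivalence over the base, the same space
for all small modifications. -/
structure NefGerm {P Lam : Type} [AddCommGroup P] [AddCommGroup Lam] (g : Germ P Lam)
    (NefG : P → Prop) (N : Type) [NormedAddCommGroup N] [NormedSpace ℝ N] where
  /-- the number of the components of the special fibre minus one -/
  n : ℕ
  /-- the classes of the components, all but one of them; the special fibre is connected and the sum
  of all its components is zero -/
  V : Fin n → Lam
  /-- the components do not meet the generic fibre -/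
  rho_V : ∀ i, g.rho (V i) = 0
  cl : Lam →+ N
  /-- an ample class of one model -/
  H : N
  /-- the real class `x - Σ s_i V_i + d H` -/
  tw : Lam → (Fin n → ℝ) → ℝ → N
  tw_eq : ∀ x s d, tw x s d = cl x - ∑ i, s i • cl (V i) + d • H
  /-- the closed movable cone: limits of classes of divisors a multiple of which has no fixed
  components -/
  Mov : Set N
  closed : IsClosed Mov
  add_mem : ∀ x y, x ∈ Mov → y ∈ Mov → x + y ∈ Mov
  smul_mem : ∀ (r : ℝ) x, 0 ≤ r → x ∈ Mov → r • x ∈ Mov
  H_mem : H ∈ Mov
  /-- Zariski's lemma (negativity lemma): a movable class with support in the special fibre is zero;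
  otherwise its restriction to a component with the largest coefficient is not pseudoeffective -/
  neg : ∀ s, tw 0 s 0 ∈ Mov → ∀ i, s i = 0
  /-- `L + (1/n) H` is ample on the generic fibre; so the fixed components of a large multiple of it
  are components of the special fibre -/
  gen : ∀ x, NefG (g.rho x) → ∀ n : ℕ, 0 < n → ∃ s, tw x s (1 / n) ∈ Mov
  /-- nef classes of the models -/
  NefR : g.Mo → N → Prop
  nef_cl : ∀ mu x, NefR mu (cl x) → g.Nef mu x
  nef_smul : ∀ mu (r : ℝ) x, 0 ≤ r → NefR mu x → NefR mu (r • x)
  /-- Birkar, Cascini, Hacon and McKernan: the minimal model program for `N = x - Σ s_i V_i + d H`, `d`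
  tending to zero, has only small steps since these classes are in the interior of the movable cone
  (they are the sum of the movable class `x - Σ s_i V_i + (d/2) H` and of `(d/2) H`), and only finitely many of them over an interval bounded away from zero. If it stops then `N` is nef
  on the last model; otherwise its infinitely many steps have the properties listed in `Run`, all of
  them published facts. That there is no infinite sequence is not assumed but proved (`Run.false`). -/
  mmp : ∀ x s, NefG (g.rho x) → (∀ d : ℝ, 0 < d → tw x s d ∈ Mov) →
    (∃ mu, NefR mu (tw x s 0)) ∨ Nonempty Run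
  /-- rational curves in the special fibre of a model `mu` which generate extremal rays on which some
  component is not zero, one curve of minimal degree for each of these extremal rays -/
  Ray : g.Mo → Type
  /-- the intersection number -/
  deg : ∀ mu, Ray mu → N → ℝ
  deg_add : ∀ mu C x y, deg mu C (x + y) = deg mu C x + deg mu C y
  deg_smul : ∀ mu C (r : ℝ) x, deg mu C (r • x) = r * deg mu C x
  deg_nef : ∀ mu C x, NefR mu x → 0 ≤ deg mu C x
  /-- Cone theorem (Kawamata, Kollár, Mori, Shokurov): `N' = x - Σ t_i V_i` is numerically the sum of
  the nef class `x - Σ s_i V_i` and an effective combination `D` of all components, and `(mu, ε D)` is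
  klt for small `ε > 0`. So if `N'` is not nef then it is negative on an extremal ray on which `D`
  is negative. -/
  cone : ∀ mu x s t, NefR mu (tw x s 0) → (∀ C, 0 ≤ deg mu C (tw x t 0)) → NefR mu (tw x t 0)
  /-- the model is `Q`-factorial, the group of classes is finitely generated -/
  ind : g.Mo → ℕ
  ind_pos : ∀ mu, 0 < ind mu
  int : ∀ mu C x, ∃ z : ℤ, ind mu * deg mu C (cl x) = z
  /-- Kawamata 1991: let `D` be the sum of the components (of all components) which are negative on the
  curve; the pairs `(mu, c D)`, `c < 1`, are klt, so the degree of `- D` is at most twice the dimension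
  of the fibres of the contraction. The sum of all components is zero. -/
  bound : ∀ mu C i, |deg mu C (cl (V i))| ≤ 6

end SNefModel

section SLong

/-!
# MP_5ee2d0_ag: sections which lift to high order lift to all orders

`YY'' → Δ'` is a model over the base change `t = t'^d` of the local ring of a point of the curve `T`, its
special fibre `X` is semi log canonical with trivial canonical class, `h^1(O_X) = h^2(O_X) = 0`; `N''` is a
class of `YY''` whose restriction to `X` is semiample, `σ` a section of `n N''` modulo `t'^i` which is zero
at no log canonical centre of `X`. `M` is a multiple `k N''`, `k = m n`, `m ≥ 2`, a line bundle which is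
generated by its sections on `X`, and `v` is the restriction of `σ^m` to `X`. We show that a general
section `u` of `M` on `X` lifts modulo `t'^i`; if `i` is larger than `d` times a number which depends only
on the family over `t` then it lifts to all orders.

Let `u_τ = v + τ (u - v)`, `0 < τ ≤ 1`, and `R_τ` its divisor. If the lift `x` of `u` has the obstruction
`o` then the lift `σ^m + τ (x - σ^m)` of `u_τ` has the obstruction `τ o`. For a flat family of classes `a_τ`
of `H^1(R_τ, ℂ)` the product with the obstruction is a Taylor coefficient of a function `f_a` which
depends only on the image of `a_τ` in `H^3(X, ℂ)`, so it is constant. It tends to zero with `τ`.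
-/

open Filter Topology

/-- `per k m` is the coefficient of `t^m` of the function `⟨Ω, c_k⟩`, where `Ω` is a generator of the
direct image of the relative canonical sheaf of the family over `t`, and the `c_k` are a basis of the
space of the classes in `H^3(X_t, ℂ)` which are invariant under the (unipotent) monodromy. `Eff` says
that a positive multiple of `L` is effective on `X_t`. -/
structure Long (i d : ℕ) {r : ℕ} (per : Fin r → ℕ → ℂ) (Eff : Prop) where
  d_pos : 0 < d
  /-- the sections of `M` modulo `t'^(l+1)` -/
  S : ℕ → Type
  trunc : ∀ l, S (l + 1) → S l
  /-- The restriction to `X` is `u_τ`. Here `u` is a general section of `M` on `X`, such that for all `τ`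
  with `0 < τ ≤ 1` the divisors `R_τ` are semi log canonical and locally trivial over the segment (only
  finitely many values are exceptional, we multiply `u - v` by a small number). -/
  On : ∀ l, ℝ → S l → Prop
  on_trunc : ∀ l x, On l 1 (trunc l x) → On (l + 1) 1 x
  /-- sections modulo `t'` are sections on `X` -/
  base : ∃ x, On 0 1 x
  /-- `H^1(X, M)` -/
  Ob : Type
  [zeroOb : Zero Ob]
  /-- the connecting homomorphism -/
  ob : ∀ l, S l → Ob
  lift : ∀ l x, ob l x = 0 → ∃ y, trunc l y = x
  /-- the power `σ^m` is a section modulo `t'^i` -/
  pow : ∀ l, l + 1 < i → ∃ y, On l 0 y ∧ ob l y = 0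
  /-- `mix l τ x y` is `y + τ (x - y)` -/
  mix : ∀ l, ℝ → S l → S l → S l
  on_mix : ∀ l τ x y, On l 1 x → On l 0 y → On l τ (mix l τ x y)
  /-- flat sections over the segment of the spaces `H^1(R_τ, ℂ)` -/
  A : Type
  /-- Identify `H^1(X, M)` with `H^1(R_τ, ω)` by the residues of `o / u_τ` (`ω_X` is trivial and
  `H^1(O_X) = H^2(O_X) = 0`); product with the component of `a_τ` in `H^1(R_τ, O)`, and trace -/
  pair : ℝ → Ob → A → ℂ
  /-- `ob` and the product are linear -/
  pair_mix : ∀ l τ x y a, ob l y = 0 → pair τ (ob l (mix l τ x y)) a = τ * pair τ (ob l x) a
  /-- The Taylor coefficients of the function `f_a` on `Δ'` which is the image of the product of `a_τ` and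
  the localised Chern class of `(M, u_τ)`, an element of `H^3_R(X) → H^3(X) = H^3(YY'', ℂ)` which does
  not depend on `τ`, under `H^3(YY'', ℂ) → R^3 π_* O = O`. -/
  coef : ℕ → A → ℂ
  /-- the localised Chern class is zero in `H^2_R(X, O)` -/
  coef_zero : ∀ a, coef 0 a = 0
  /-- If `u_τ` is lifted modulo `t'^(l+1)`, the coefficient of `t'^(l+1)` is given by the obstruction
  (Bloch 1972, Ran 1993, Buchweitz and Flenner 2003: semiregularity). For a divisor it is the
  exponential sequence with supports in `R = R_τ`: the localised Chern class is zero in
  `H^2_R(O / t'^(l+1))` and `t'^(l+1) (ob / u_τ)` in `H^2_R(O / t'^(l+2))`, up to the image of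
  `H^1_R(O / t'^(l+1))`, which the product with `H^1(R, ℂ)` sends to zero in `H^3(O / t'^(l+2))`. -/
  taylor : ∀ l a (τ : ℝ) x, 0 < τ → τ ≤ 1 → On l τ x → coef (l + 1) a = pair τ (ob l x) a
  /-- Let `h` be a general very ample divisor of `X` with `H^1(X, M + h) = 0`. Then `o` is the image of a
  section `θ` of `M + h` on `h`, independent of `τ`. The curve `R_τ ∩ h` is nodal, so `a_τ` restricted to
  it comes from a class which is zero at the nodes, and the product is the integral of the residue of
  `θ / u_τ` over a flat family of closed cycles in the regular part of the curve. On a log resolution of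
  the normalisation of `X` let `a_j ≥ -1` be the discrepancies and `A_j` the orders of `v`. Since `σ` is
  zero at no log canonical centre, `a_j > -1` if `A_j > 0`, so the total space of the family of the curves
  has no log canonical centre over `τ = 0` (it is `x^A + τ y = 0`). The integral is at most a power of
  `|log τ|` times `τ^(-1+δ)`, `δ` the minimum of the numbers `(1 + a_j) / A_j` with `A_j > 0`
  (Steenbrink; Arnold, Varchenko). -/
  growth : ∀ o a, Tendsto (fun τ : ℝ => (τ : ℂ) * pair τ o a) (𝓝[>] 0) (𝓝 0)
  /-- Serre duality on `R_1`, and `H^1(R_1, ℂ) → H^1(R_1, O)` is onto because `R_1` is semi log canonical,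
  so it is Du Bois (Kollár, Kovács) -/
  serre : ∀ o, (∀ a, pair 1 o a = 0) → o = 0
  /-- the image of `a_τ` in `H^3(X_t, ℂ)`, coordinates with respect to the basis `c_k`: it is invariant
  under the monodromy of `t'`, so it is invariant under the unipotent monodromy of `t` -/
  cls : A → Fin r → ℂ
  /-- `f_a(t')` is `⟨Ω, cls a⟩(t'^d)` times a function without zeros: `Ω` is also a generator on `YY''`,
  since the fibres are reduced and the canonical classes trivial -/
  order : ∀ a, (∀ l < i, coef l a = 0) → ∀ m, d * m < i → ∑ k, cls a k * per k m = 0
  vanish : ∀ a, (∀ m, ∑ k, cls a k * per k m = 0) → ∀ l, coef l a = 0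
  /-- Grothendieck: a section over the formal completion, not zero on `X` -/
  algebraize : (∃ x : ∀ l, S l, On 0 1 (x 0) ∧ ∀ l, trunc l (x (l + 1)) = x l) → Eff

attribute [instance] Long.zeroOb

end SLong

section STransfer

/-!
# MP_5ee2d0_ag: long liftings of sections give effective classes; all types of special fibres

`YY → Δ` is a model over the local ring of a point of the curve `T` as in `Run`, `t = 0` is its special
fibre `F = Σ V_i`, and `N` is a Cartier class which is nef on `YY` and the multiples of which have no
sections on the generic fibre. Let `s` be a section of `n N` modulo `t^j` which is not zero on `F`. Then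
`j ≤ C n`, where the constant `C` depends only on `YY` and `N`; no property of the special fibre is used.

The idea: the orders of `s` along the log canonical places of `(YY, F)` define a function on the dual
complex, which is made linear on the cells by a refinement over a base change `t = t'^d`; subtracting it
from `N` gives a class `N'` and a section `s'` which vanishes at no log canonical place. The program for
`N'` changes the direct images only by `t'^k` with `k = O(n d)`, so the section survives on all models, no
component is contracted, the program ends by `Run.false`, and abundance for semi log canonical threefolds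
applies: the transform `N''` of `N'` is semiample on the special fibre. The last step is `Long`.
-/

/-- The refined model `YY'` over the base change `t = t'^d`, with the class `N'` and the section `s'`,
and the minimal model program for `N' + e H`, `e` decreasing to zero, `H` ample on `YY'`. There is a
crepant morphism from `YY'` to the base change of `YY`, so `N` is nef on `YY'`; `YY'` is a `Q`-factorial
dlt model with trivial canonical class and reduced special fibre `F'`, so it is terminal;
`N' = N - G/n` with a divisor `0 ≤ G ≤ d c n F'`. -/
structure Refined (n c j : ℕ) {r : ℕ} (per : Fin r → ℕ → ℂ) (Eff : Prop) where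
  d : ℕ
  d_pos : 0 < d
  /-- the prime divisors over `YY'` with centre in the special fibre -/
  Dv : Type
  /-- their multiplicities in the special fibre -/
  mult : Dv → ℕ
  mult_pos : ∀ v, 0 < mult v
  /-- log canonical places of `(YY', F')` -/
  Lc : Dv → Prop
  /-- the components of `F'` -/
  m : ℕ
  cmp : Fin m → Dv
  cmp_lc : ∀ V, Lc (cmp V)
  /-- the order of `s` along `v`, and the multiplicity of `G = Σ u(V) V` -/
  u : Dv → ℝ
  g : Dv → ℝ
  g_cmp : ∀ V, g (cmp V) = u (cmp V)
  /-- The pair has simple normal crossings at the general points of its log canonical centres, so `v` is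
  a monomial valuation, with weights `w`, and `u` is linear on the cells of the dual complex. -/
  lin : ∀ v, Lc v → ∃ w : Fin m → ℝ, u v = ∑ V, w V * u (cmp V) ∧ g v = ∑ V, w V * g (cmp V)
  /-- the models: `YY'` and the results of the steps of the program, up to the first model on which the
  program stops or contracts a divisor. All of them are small modifications of `YY'`. -/
  Mo : Type
  mu0 : Mo
  /-- the coefficients of the differences of the pull backs of `N'` (of `H`) from `YY'` and from `mu` -/
  E : Mo → Dv → ℝ
  EH : Mo → Dv → ℝ
  /-- negativity lemma -/
  E_nonneg : ∀ mu v, 0 ≤ E mu v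
  /-- `E + e EH` is the difference of the asymptotic orders of `N' + e H` along `v` on `YY'` and on `mu`
  (Nakayama 2004), so it is at most the first of them. Numerically `N' + e H` is the sum of the nef class
  `N + e H` and of the effective divisor `d c F' - G/n`, the coefficients of which are at most those
  of `d c F'`. -/
  E_le' : ∀ mu v e, 0 < e → E mu v + e * EH mu v ≤ d * c * mult v
  /-- the first direct image of `O(n N')` on `mu`, with its zero element and the multiplication by `t'`.
  As `n N'` has no sections on the generic fibre, a section of `O(n N')/t'^i` is an element `x` killed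
  by `t'^i`. -/
  T : Mo → Type
  zero : ∀ mu, T mu
  tau : ∀ mu, T mu → T mu
  /-- the order along `v` of the section of `O(n N')/t'^i` given by `x`: the minimum of `i mult v` and
  the order of a local lifting -/
  ord : ∀ mu, ℕ → T mu → Dv → ℝ
  ord_nonneg : ∀ mu i x v, (tau mu)^[i] x = zero mu → 0 ≤ ord mu i x v
  /-- the section `s'` given by `s` -/
  s : T mu0
  s_kill : (tau mu0)^[d * (j - c * n)] s = zero mu0
  ord_s : ∀ v, Lc v → ord mu0 (d * (j - c * n)) s v = u v - g v
  /-- Let `W` be a log resolution of `YY'` and `mu`, with the round up `A` (`B`) of `K_W` plus the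
  pull back of `n N'` from `YY'` (from `mu`). By the vanishing theorem of Kawamata and Viehweg `O(A)`
  and `O(B)` have the same direct images as `O(n N')` on `YY'` and `mu`. If `n E + 1 ≤ k F'` on `W` then
  the multiplication by `t'^k` maps `O(A)` to `O(B)`; otherwise the map is zero by definition. -/
  push : ∀ mu, ℕ → T mu0 → T mu
  push_zero : ∀ mu k, push mu k (zero mu0) = zero mu
  push_tau : ∀ mu k x, push mu k (tau mu0 x) = tau mu (push mu k x)
  /-- at the general points of the components of the special fibre `YY'` and `mu` are isomorphic -/
  push_cmp : ∀ mu (k : ℕ), (∀ v, n * E mu v + 1 ≤ k * mult v) → ∀ i x V,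
    (tau mu0)^[i] x = zero mu0 → k ≤ i → k * mult (cmp V) ≤ ord mu i (push mu k x) (cmp V)
  /-- `O(n N')/t'^k` is Cohen-Macaulay since `mu` is klt and `N'` is `Q`-Cartier, so a section which
  vanishes at the general points of the components is zero. The reduction modulo `t'^k` of `x` is given
  by `t'^(i-k) x`. -/
  no_emb : ∀ mu (i k : ℕ) x, k ≤ i → (tau mu)^[i] x = zero mu →
    (∀ V, k * mult (cmp V) ≤ ord mu i x (cmp V)) → (tau mu)^[i - k] x = zero mu
  /-- `t'^k` times the difference of the liftings of `x` and of `(push x)/t'^k` lies in `t'^i O(B)`
  (both give the element `push x`, and `n N'` has no sections); the coefficient of `K_W` in a log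
  canonical place is `mult v - 1`, so the difference has order at least `(i - k - 1) mult v > 0` at `v` -/
  push_lc : ∀ mu (k : ℕ), (∀ v, n * E mu v + 1 ≤ k * mult v) → ∀ i x v, Lc v →
    (tau mu0)^[i] x = zero mu0 → k + 2 ≤ i → (tau mu)^[i - k] (push mu k x) = zero mu →
    ord mu0 i x v = 0 → ord mu (i - k) (push mu k x) v = - (n * E mu v)
  /-- `N'` is nef on `mu` -/
  Nef : Mo → Prop
  /-- the next step contracts the component `V` -/
  Con : Mo → Fin m → Prop
  /-- Birkar, Cascini, Hacon, McKernan. If no divisor is contracted and the program does not stop then
  all the models are `Q`-factorial terminal, and the infinitely many steps give the data of `Run`. -/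
  program : (∃ mu, Nef mu) ∨ (∃ mu V, Con mu V) ∨ Nonempty Run
  /-- the contracted curves cover `V`, and `N'` is negative on them -/
  con : ∀ mu V, Con mu V → ∀ i x, 0 < i → (tau mu)^[i] x = zero mu → ord mu i x (cmp V) ≠ 0
  /-- The special fibre `X` of `mu` is semi log canonical with trivial canonical class. The zeros `R` of
  a section of a multiple of `N'|X` which is not zero at the general point of any log canonical centre
  give a semi log canonical pair `(X, ε R)`, so `N'|X` is semiample by the abundance theorem for semi
  log canonical threefolds (Keel, Matsuki, McKernan 1994; Abramovich, Fong, Kollár, McKernan 1992;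
  Fujino 2000). So there are the data of `Long`. -/
  abundance : ∀ mu, Nef mu → ∀ i x, 0 < i → (tau mu)^[i] x = zero mu →
    (∀ v, Lc v → ord mu i x v = 0) → Nonempty (Long i d per Eff)

/-- The sections of the multiples of `N` modulo powers of `t`. Here `Lifts n j` means that there is a
section of `n N` modulo `t^j` which is not zero on the special fibre of `YY`, and `Eff` that a positive
multiple of `L` is effective on `X_t`. -/
structure Transfer (Lifts : ℕ → ℕ → Prop) {r : ℕ} (per : Fin r → ℕ → ℂ) (Eff : Prop) where
  /-- the vertices of the dual complex: the components with log discrepancy zero of the special fibre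
  of a log resolution of `(YY, F)`. Two of them are adjacent if they meet. The complex is connected
  (Kollár, Shokurov). -/
  v : ℕ
  adj : Fin v → Fin v → Prop
  conn : ∀ a b, Relation.ReflTransGen adj a b
  /-- the sections of `n N` modulo `t^j` which are not zero on the special fibre -/
  Sec : ℕ → ℕ → Type
  sec : ∀ n j, Lifts n j → Nonempty (Sec n j)
  /-- the order of a section along a component -/
  ord : ∀ n j, Sec n j → Fin v → ℕ
  /-- it is zero for some component of the special fibre of `YY` -/
  start : ∀ n j s, ∃ a, ord n j s a = 0
  /-- Let `o` be the order of `s` along `a`. The initial form of `s` along `a` is a nonzero section of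
  `n N - o a` on `a`; its order along the intersection with `b` (and its multiplicity along the smaller
  strata) is at most the degree of `n N - o a` with respect to a very ample divisor; `c ≥ 1`. -/
  c : ℕ
  step : ∀ n j s a b, adj a b → ord n j s a < j → ord n j s b ≤ c * (n + ord n j s a)
  /-- Normalise the log canonical places `v` of `(YY, F)` by `v(t) = 1`. On a cell of the dual complex
  `v(s)` is the minimum of finitely many linear functions with rational coefficients (the monomials of
  a local equation), and at most `c (n + o)`, `o` the order along a vertex, by the same argument. There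
  is a subdivision of the dual complex on the cells of which `v(s)` is linear, and a base change
  `t = t'^d` such that the vertices are integral and the special fibre is reduced. After the base change the subdivision is the dual
  complex of a `Q`-factorial dlt model with trivial canonical class and reduced special fibre
  (Kempf, Knudsen, Mumford, Saint-Donat 1973; Birkar, Cascini, Hacon, McKernan 2010; de Fernex, Kollár,
  Xu 2017); `G` is the sum of the orders of `s` times the components. -/
  refine : ∀ n j (s : Sec n j) C, 0 < n → (∀ a, ord n j s a ≤ C * n) → c * (C + 1) * n < j →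
    Nonempty (Refined n (c * (C + 1)) j per Eff)

end STransfer

section SNuOne

/-! # MP_5ee2d0_ag, numerical dimension one -/

open Filter Pool.Agent.H96.N1 Pool.Agent.H33.N1 Pool.Agent.H60.N1

/-- `G` is a very general fibre `X_t` of the family over the curve `T`, a smooth simply connected
threefold which is not rigid; `L` is a nef class with `L^2 = 0`, not zero, which extends to a class `N`,
nef over `T`, of a model of the family. -/
structure NuOne {P : Type} [AddCommGroup P] (G : CY P) (L : P) where
  /-- the Picard group is finitely generated -/
  fin : Module.Finite ℤ P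
  /-- ample classes -/
  Amp : P → Prop
  amp_H : Amp G.H
  amp_open : ∀ y, ∃ m0 : ℤ, ∀ m, m0 ≤ m → Amp (m • G.H + y)
  amp_nef : ∀ x, Amp x → G.Nef x
  amp_big : ∀ x, Amp x → 0 < G.T x x x
  /-- `L` is not numerically trivial -/
  amp_L : ∀ x, Amp x → 0 < G.T L x x
  /-- the degrees of the curves `C` in `X_t` with `L.C = 0` -/
  Triv : (P → ℤ) → Prop
  primes : Primes G.T G.h G.Nef Triv G.H L
  pencil : Pencil G.T G.c G.Nef G.H L Triv (Nonempty Run)
  /-- `nsq B` is the number `N.N.B.B` for an extension of `B` to a modification of the models -/
  nsq : P → ℤ
  ends : Ends G.T G.h L (pencil.Q pencil.N pencil.N pencil.N pencil.N) pencil.Zero pencil.Psef Amp nsq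
  /-- If `M` is nef and big and `c_2.M = 0` then `X_t` is a crepant resolution of the quotient of an abelian
  threefold by a finite group which acts freely in codimension two (Shepherd-Barron and Wilson 1994).
  As `X_t` is simply connected it is one of two rigid threefolds (Oguiso and Sakurai 2001). -/
  rigid : ∀ M, G.Nef M → 0 < G.T M M M → G.c M ≠ 0
  /-- `2 M + L` is semiample and gives a fibration `φ : X_t → S` over a surface, `M` and `M + L` are
  semiample and trivial on the fibres, so they are pull backs from `S`, and so is `L = φ^* L_S`; `L_S` is
  nef, not zero, and `L_S^2 = 0`. `S` is normal, `H^1(S, O) = 0` and `K_S + Δ` is numerically trivial for a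
  divisor `Δ ≥ 0` with klt `(S, Δ)`. Riemann-Roch on the minimal resolution of `S`:
  `χ(k L_S) = χ(O) - k K.L_S / 2 ≥ 1`. -/
  surf : ∀ M, G.SA M → G.SA (M + L) → G.T M M M = 0 → G.T M M L = 0 → G.T M M G.H ≠ 0 →
    ∃ k : ℕ, 0 < k ∧ G.h 0 (k • L) ≠ 0

end SNuOne

section SNuTwo

/-! # MP_5ee2d0_ag, numerical dimension two -/

open Pool.Agent.H96.N1

/-- `G` is a very general fibre `X_t` of the family over the curve `T`; `L` is a nef class with `L^3 = 0`,
`L^2 ≠ 0`, `c_2.L = 0` and `H^i(X_t, k L) = 0` for all `i` and `k > 0`, which extends to a class `N`, nef
over `T`, of a model `Y` of the family `π : Y → T`. -/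
structure NuTwo {P : Type} [AddCommGroup P] (G : CY P) (L : P) where
  curve : Curve G.T G.c G.Nef G.H L (Nonempty Run)
  /-- the family is not isotrivial -/
  g_pos : 0 < curve.g
  pos : 0 < G.T L L G.H
  /-- the points `p` of `T` for which the fibre `X_p` of `Y` is not smooth -/
  I : Type
  [fin : Fintype I]
  /-- the dimension of the space of the classes in `H^3(X_t, ℂ)` which are invariant under the monodromy
  at `p` -/
  r : I → ℕ
  /-- see `Long` -/
  per : ∀ p, Fin (r p) → ℕ → ℂ
  /-- `Lifts p n j`: there is a section of `n N` modulo `t^j` which is not zero on `X_p`, `t` a parameter at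
  `p` -/
  Lifts : I → ℕ → ℕ → Prop
  transfer : ∀ p, Transfer (Lifts p) (per p) (∃ k : ℕ, 0 < k ∧ G.h 0 (k • L) ≠ 0)
  /-- the length at `p` of `R^1 π_* O(n N)`, a torsion sheaf since `n L` is acyclic on `X_t` -/
  len : I → ℕ → ℕ
  /-- The number of its generators, `h^1(X_p, n N)`, is equal to `h^0(X_p, n N)`, since the direct images of
  `O(n N)` in the degrees `i ≥ 2` are zero (Kawamata and Viehweg) and `χ(X_p, n N) = χ(X_t, n L) = 0`. -/
  gen : I → ℕ → ℕ
  /-- if `t^e` is not zero on `R^1 π_* O(n N)` at `p` then it contains an element `x` with `t^(j-1) x ≠ 0`,
  `t^j x = 0`, `j > e`, given by a section of `n N` modulo `t^j` which is not zero on `X_p` -/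
  len_le : ∀ p (n e : ℕ), 0 < n → (∀ j, Lifts p n j → j ≤ e) → len p n ≤ e * gen p n
  /-- as `L^3 = 0` and `N` is nef, `N^3` is zero on the components of the reduced fibre `X_p` -/
  C : ℕ
  gen_le : ∀ p n, 0 < n → gen p n ≤ C * n ^ 2
  /-- Riemann-Roch theorem: `24 χ(Y, n N) = n^4 N^4 + n^2 c_2.N.N + 24 deg λ`. It is an even polynomial by
  duality, because `K_Y` is the pull back of a divisor of `T` and `χ(X_t, n L) = 0`; `χ(O_Y) = deg λ` because
  `R^1 π_* O = R^2 π_* O = 0` and `R^3 π_* O = λ^(-1)`. The direct images of `O(n N)` are zero except for
  `R^1`, which has its support in the points `p`: if `n N` has a section on the smooth fibre `X_q` then `N`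
  is semiample on it (Keel, Matsuki, McKernan 1994) and gives an elliptic fibration, which extends to the
  fibres near `X_q` since `H^2(O) = 0` (Kollár 2015), so a multiple of `L` is effective; but `n L` is
  acyclic on `X_t`. -/
  rr : ∀ n : ℕ, 0 < n → curve.Q curve.N curve.N curve.N curve.N * n ^ 4 + curve.cN * n ^ 2 +
    24 * curve.g = -24 * ∑ p, (len p n : ℤ)

attribute [instance] NuTwo.fin

end SNuTwo

/-! ## Local -/

section SLocal

/-- The models over the local ring of one point `p` of `T`, as in `NefGerm`; `Int`: `p` is an interior
point. The restriction to `X_t` is onto and `P` is torsion free, because the threefold is simply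
connected; after a finite covering of `T` there is no monodromy on `P`. -/
structure At {P Lam : Type} [AddCommGroup P] [AddCommGroup Lam] (g : Germ P Lam) (NefG : P → Prop)
    (Int : Prop) where
  /-- the given smooth model if `p` is an interior point; one of the models otherwise -/
  mu0 : g.Mo
  /-- an additive section of `rho`; the closure of a divisor class of `X_t` if `p` is interior -/
  lift : P →+ Lam
  rho_lift : ∀ x, g.rho (lift x) = x
  car_int : ∀ x, Int → g.Car mu0 (lift x)
  /-- all models are `Q`-factorial -/
  qfac : ∀ mu x, ∃ k : ℕ, 0 < k ∧ ∀ j : ℕ, g.Car mu (j • k • x)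
  nef_nsmul : ∀ mu x (k : ℕ), g.Nef mu x → g.Nef mu (k • x)
  /-- the dimension of the space of the real classes of divisors over the local ring -/
  dim : ℕ
  nef : NefGerm g NefG (EuclideanSpace ℝ (Fin dim))

/-- the extension of `L` to the given model is nef -/
def At.NefStd {P Lam : Type} [AddCommGroup P] [AddCommGroup Lam] {g : Germ P Lam}
    {NefG : P → Prop} {Int : Prop} (A : At g NefG Int) (L : P) : Prop :=
  g.Nef A.mu0 (A.lift L)

/-- an extension of `m L` over the local ring of `p`, all positive multiples are Cartier classes -/
structure Ext {P Lam : Type} [AddCommGroup P] [AddCommGroup Lam] (g : Germ P Lam) (L : P)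
    (m : ℕ) where
  mu : g.Mo
  x : Lam
  rho : g.rho x = m • L
  car : ∀ j : ℕ, 0 < j → g.Car mu (j • x)

/-- the extension is nef -/
def Ext.Nef {P Lam : Type} [AddCommGroup P] [AddCommGroup Lam] {g : Germ P Lam} {L : P}
    {m : ℕ} (E : Ext g L m) : Prop := g.Nef E.mu E.x

/-- the standard extension at an interior point -/
structure Ext.Std {P Lam : Type} [AddCommGroup P] [AddCommGroup Lam] {g : Germ P Lam} {L : P}
    {m : ℕ} (E : Ext g L m) {NefG : P → Prop} {Int : Prop} (A : At g NefG Int) : Prop where
  int : Int
  mu : E.mu = A.mu0
  x : E.x = m • A.lift L
  nef : A.NefStd L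

/-- Models over the points of `T`, one model and all its small modifications over each of them (Kempf,
Knudsen, Mumford, Saint-Donat; Birkar, Cascini, Hacon, McKernan; after a finite covering of `T`). -/
structure Models {P : Type} [AddCommGroup P] (B : Type) (Int : B → Prop) (NefG : P → Prop) where
  /-- the rank of the divisor class group, an extension of `P` by the free group of the components of the
  special fibre modulo their sum -/
  rk : B → ℕ
  germ : ∀ p, Germ P (FreeAbelianGroup (Fin (rk p)))
  at' : ∀ p, At (germ p) NefG (Int p)

/-- An extension of `m L` over all points of `T`, the standard one outside of the finite set `S`. -/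
structure Family {P : Type} [AddCommGroup P] {B : Type} {Int : B → Prop} {NefG : P → Prop}
    (M : Models B Int NefG) (L : P) where
  m : ℕ
  m_pos : 0 < m
  S : Finset B
  ext : ∀ p, Ext (M.germ p) L m
  std : ∀ p, p ∉ S → (ext p).Std (M.at' p)

end SLocal

/-! ## Join -/

section SJoin

/-- nef classes of `G` all positive multiples of which have no cohomology -/
structure Bad {P : Type} [AddCommGroup P] (G : CY P) (L : P) : Prop where
  nef : G.Nef L
  cube : G.T L L L = 0
  c : G.c L = 0
  acyclic : ∀ k : ℕ, 0 < k → ∀ i, G.h i (k • L) = 0

/-- The deformations of the simply connected threefold `X`, `h^(2,1)(X) > 0` (Bogomolov, Tian,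
Todorov). `T` is a finite covering of a very general complete curve in a compactification of the
moduli space, such that the monodromy on `H^2(X_t)` is trivial, the monodromy on `H^3(X_t)` around the
points of `T` is unipotent, and there are models with reduced fibres. -/
structure Setup {P : Type} [AddCommGroup P] (X : CY P) where
  /-- a very general fibre `X_t` of the family over `T`; its Picard group is the Picard group of `X` -/
  G : CY P
  /-- ample classes of `X` are ample on `X_t`, nef classes are limits of ample ones -/
  nef : ∀ x, X.Nef x → G.Nef x
  /-- semicontinuity -/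
  semi : ∀ i x, G.h i x ≤ X.h i x
  /-- the points of `T` -/
  B : Type
  /-- interior points: the points over the moduli space -/
  Int : B → Prop
  models : Models B Int G.Nef
  interior : Interior G B Int fun p L => (models.at' p).NefStd L
  /-- Numerical dimension two. The models of `F` over the points of `T` are glued to a fourfold `Y → T`
  with a Cartier class `N`, nef over `T`, whose restriction to `X_t` is `m L`. `Y` is projective for a
  suitable choice of the models: those on which `N + d H` is nef for small `d > 0`, `H` ample on one
  projective model; the pull back of `N` to a common resolution is the same. -/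
  two : ∀ L, Bad G L → (∃ z, G.T L L z ≠ 0) → ∀ F : Family models L, (∀ p, (F.ext p).Nef) →
    Nonempty (NuTwo G (F.m • L))
  /-- numerical dimension one, the same fourfold -/
  one : ∀ L, Bad G L → (∀ z, G.T L L z = 0) → ∀ F : Family models L, (∀ p, (F.ext p).Nef) →
    Nonempty (NuOne G (F.m • L))

end SJoin

section SSplit

/-! Reduction to the irreducible factors: `X` is a projective manifold of any dimension with
`K_X ~ 0` and `H^1(X, O_X) = 0`. By Beauville and Bogomolov there is a finite étale Galois covering
`X' → X` with group `G` and `X' = A × Y_1 × ... × Y_n`, where `A` is an abelian variety and the `Y_i`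
are simply connected: K3 surfaces, and strict Calabi-Yau or hyperkähler manifolds of dimension at
least three. -/

/-- A nef line bundle `M` on `A`, invariant under `G`: the restriction of a line bundle of `X`. `K`
is the largest abelian subvariety on which `M` is numerically trivial (the neutral component of the
kernel of `φ_M : A → Pic^0(A)`). The group `G` acts on `A` (Beauville: the vector fields of the `Y_i`
are zero), and through the linear parts on `Pic^0(K)` and on the tangent spaces. -/
structure Flat (G : Type) [Group G] [Fintype G] where
  /-- `Pic^0(K)` -/
  Z : Type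
  [grpZ : AddCommGroup Z]
  act : G → Z → Z
  /-- `H^1(A, O_A)` and `H^1(K, O_K)`, the tangent spaces of `Pic^0(A)` and `Pic^0(K)` -/
  W : Type
  V : Type
  [grpW : AddCommGroup W]
  [grpV : AddCommGroup V]
  actW : G → W → W
  actV : G → V → V
  add_W : ∀ g, Add (actW g)
  mul_W : ∀ g g' w, actW (g * g') w = actW g (actW g' w)
  /-- the restriction is onto (Poincaré's complete reducibility) and equivariant -/
  r : W → V
  add_r : Add r
  r_onto : Function.Surjective r
  r_act : ∀ g w, r (actW g w) = actV g (r w)
  /-- `H^1(X, O_X) = 0` is the space of invariants of `H^1(X', O_(X')) = H^1(A, O_A)` -/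
  inv : ∀ w, (∀ g, actW g w = w) → w = 0
  /-- an endomorphism of an abelian variety with vanishing differential is zero -/
  rigid : (∀ v, ∑ g, actV g v = 0) → ∀ z, ∑ g, act g z = 0
  /-- the restriction of `M` to `K`; it does not depend on the translate of `K`, and `M` is
  invariant -/
  p : Z
  p_inv : ∀ g, act g p = p

attribute [instance] Flat.grpZ Flat.grpW Flat.grpV

/-- The data of `X` and `X' = A × Y_1 × ... × Y_n`. -/
structure Split where
  /-- the Picard groups of `X`, of `A` and of the `Y_i` -/
  P : Type
  R : Type
  I : Type
  Q : I → Type
  /-- nef and semiample classes -/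
  Nef : P → Prop
  SA : P → Prop
  saA : R → Prop
  nefY : ∀ i, Q i → Prop
  saY : ∀ i, Q i → Prop
  /-- restriction of the pull back to the factors -/
  res : ∀ i, P → Q i
  resA : P → R
  nef_res : ∀ x i, Nef x → nefY i (res i x)
  /-- The pull back of `x` is the sum of its restrictions to the factors (`Y_i` is simply connected),
  and semiampleness descends along finite coverings (norm). -/
  descent : ∀ x, (∀ i, saY i (res i x)) → saA (resA x) → SA x
  G : Type
  [grpG : Group G]
  [finG : Fintype G]
  /-- If a multiple of the restriction of `M` to `K` is trivial, a multiple of `M` is the pull back of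
  an ample line bundle on `A/K`. -/
  flat : ∀ x, Nef x → ∃ F : Flat G, ∀ n : ℕ, 0 < n → n • F.p = 0 → saA (resA x)

attribute [instance] Split.grpG Split.finG

end SSplit

/-! ## Final -/

section SFinal

/-- A smooth projective simply connected threefold `X` with trivial canonical class,
`h^(2,1)(X) = h21`; `P` is its Picard group. -/
structure Threefold (P : Type) [AddCommGroup P] where
  X : CY P
  h21 : ℕ
  /-- the family of all deformations -/
  setup : 0 < h21 → Setup X
  /-- for a nef class `x` which is not semiample: the last model of the minimal model program which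
  contracts the surfaces on which `x` is trivial; `x` has numerical dimension two if and only if `x^2`
  is not zero -/
  last : h21 = 0 → ∀ x, X.Nef x → ¬ X.SA x → Pool.Agent.H76.S.Last h21 (∃ z, X.T x x z ≠ 0)

/-- `X` is a projective manifold of any dimension with `K_X ~ 0` and `H^1(X, O_X) = 0`; each
irreducible factor of a finite étale covering of `X` is an abelian variety, a K3 surface, a hyperkähler
manifold of one of the known deformation types or a simply connected threefold (Beauville, Bogomolov).
In particular `X` can be any such manifold of dimension at most three. -/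
structure Given extends Split where
  /-- `Y_i` is a threefold; the others are K3 surfaces or hyperkähler manifolds of the known deformation
  types (Hilbert schemes of points of K3 surfaces, generalised Kummer varieties, O'Grady's types in
  dimension six and ten) -/
  Thr : I → Prop
  /-- Saint-Donat for K3 surfaces. Known deformation types: a nef divisor of positive square is semiample
  by the base point free theorem, of square zero by Bayer, Macrì 2014; Markman 2014; Matsushita 2017
  (K3^[n] type); Yoshioka 2016; Wieneck 2018 (Kummer type); Mongardi, Rapagnetta 2021 (dimension six);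
  Mongardi, Onorati 2022 (dimension ten) -/
  known : ∀ i, ¬ Thr i → ∀ y, nefY i y → saY i y
  /-- the Picard number of the threefold -/
  rk : I → ℕ
  thr : ∀ i, Thr i → Threefold (FreeAbelianGroup (Fin (rk i)))
  /-- the divisor classes -/
  cls : ∀ i, Q i → FreeAbelianGroup (Fin (rk i))
  nef_cls : ∀ i hi y, nefY i y → (thr i hi).X.Nef (cls i y)
  sa_cls : ∀ i hi y, (thr i hi).X.SA (cls i y) → saY i y

end SFinal

end Pool.Agent.H48.CYN
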