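import Pool.Agent.H48.CYN.Defs
import Pool.Agent.H76.S.Main
import Pool.Agent.H96.N1.Two
import Pool.Agent.H96.N1.Quad
import Pool.Agent.H33.N1.Cube
import Pool.Agent.H60.N1.Null
import Pool.Agent.H15.N1.Four
import Pool.Agent.H54.N1.Chern

namespace Pool.Agent.H48.CYN

section SBase

section

variable {A B : Type} [AddCommGroup A] [AddCommGroup B] {f : A → B}

lemma Add.zsmul (h : Add f) (k : ℤ) (x : A) : f (k • x) = k • f x :=
  map_zsmul (AddMonoidHom.mk' f h) k x

lemma Add.sub (h : Add f) (x y : A) : f (x - y) = f x - f y :=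
  map_sub (AddMonoidHom.mk' f h) x y

lemma Add.zero (h : Add f) : f 0 = 0 :=
  map_zero (AddMonoidHom.mk' f h)

end

namespace CY

variable {P : Type} [AddCommGroup P] (D : CY P)

/-- Hodge index theorem on `Y` -/
theorem index (z : P) (h1 : D.T D.H D.H z = 0) (h2 : 0 ≤ D.T D.H z z) : z = 0 := by
  apply D.surfaces.inj 0
  apply D.surfaces.index
  · rw [D.surfaces.form, h1, mul_zero]
  · rw [D.surfaces.form]
    exact mul_nonneg (by positivity) h2

include D in

/-- the Picard group is torsion free -/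
lemma torsion_free (z : P) (k : ℤ) (hk : k ≠ 0) (hz : k • z = 0) : z = 0 := by
  have e : ∀ x, D.T D.H x z = 0 := by
    intro x
    have h := (D.lines.add_T D.H x).zsmul k z
    rw [hz, (D.lines.add_T D.H x).zero, smul_eq_mul] at h
    exact (mul_eq_zero.1 h.symm).resolve_left hk
  exact D.index z (e _) (e _).ge

lemma deg_pos (x : P) (hx : D.Nef x) (hx0 : x ≠ 0) (hsq : D.T D.H x x = 0) :
    0 < D.T D.H D.H x := by
  rcases (D.lines.nonneg _ _ _ D.lines.nef_H D.lines.nef_H hx).eq_or_lt with h | h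
  · exact absurd (D.index x h.symm hsq.ge) hx0
  · exact h

private lemma I_sub (j : ℕ) (a b c : D.G j) : D.I j (a - b) c = D.I j a c - D.I j b c := by
  rw [D.surfaces.symm, (D.surfaces.add_I j c).sub, D.surfaces.symm j c a, D.surfaces.symm j c b]

private lemma I_smul (j : ℕ) (k : ℤ) (a c : D.G j) : D.I j (k • a) c = k * D.I j a c := by
  rw [D.surfaces.symm, (D.surfaces.add_I j c).zsmul, D.surfaces.symm j c a, smul_eq_mul]

/-- If `x` is nef, `x^2 = 0` and `H^1(Y, -x) ≠ 0` then a positive rational multiple `y` of `x`, at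
most one half of `x`, is a divisor class with effective restriction to `S`. -/
theorem destab (x : P) (hx : D.Nef x) (hsq : D.T D.H x x = 0) (hpos : 0 < D.T D.H D.H x)
    (h1 : D.h 1 (-x) ≠ 0) (j : ℕ) :
    ∃ (y : P) (a b : ℤ), 0 < b ∧ 2 * b ≤ a ∧ a • y = b • x ∧ D.Eff j (D.res j y) := by
  obtain ⟨E, hE1, hE2, hE⟩ := D.bundles.ext x hx h1
  have hst : ¬ D.Stable E := by
    intro hs
    have h2 := D.bundles.bog E hs
    rw [hE1, hE2, hsq] at h2
    simp at h2
  obtain ⟨F, w, hF, hdeg⟩ := D.bundles.unstable E hst j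
  rw [hE1] at hdeg hF
  have hch := D.surfaces.chern j _ _ F w hF
  rw [D.bundles.c2_res, hE2, mul_zero] at hch
  have hE := hE j F w hF
  have hAN : 0 < D.I j (D.res j D.H) (D.res j x) := by
    rw [D.surfaces.form]
    exact mul_pos (by positivity) hpos
  have hNN : D.I j (D.res j x) (D.res j x) = 0 := by rw [D.surfaces.form, hsq, mul_zero]
  obtain ⟨hZ, hne⟩ := hE (by linarith)
  obtain ⟨Z, hZd⟩ : ∃ Z, Z = D.res j x - F := ⟨_, rfl⟩
  have hFd : F = D.res j x - Z := by rw [hZd]; abel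
  have hS := D.surfaces.add_I j
  rw [← hZd] at hZ hch
  have hZ0 : Z ≠ 0 := by
    rw [hZd]
    exact sub_ne_zero.2 hne
  have e1 := D.surfaces.nef_eff j x Z hx hZ
  have e2 := D.surfaces.nef_eff j D.H Z D.lines.nef_H hZ
  rw [hFd, D.I_sub, D.surfaces.symm j Z] at hch
  rw [hFd, (hS _).sub] at hdeg
  have hw : (0 : ℤ) ≤ (w : ℤ) := Int.natCast_nonneg w
  have hZZ : D.I j (D.res j x) Z ≤ D.I j Z Z := by linarith
  have e3 : 0 < D.I j (D.res j D.H) Z := by
    rcases e2.eq_or_lt with h | h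
    · exact absurd (D.surfaces.index j Z h.symm (e1.trans hZZ)) hZ0
    · exact h
  obtain ⟨a, ha⟩ : ∃ a, a = D.I j (D.res j D.H) (D.res j x) := ⟨_, rfl⟩
  obtain ⟨b, hb⟩ : ∃ b, b = D.I j (D.res j D.H) Z := ⟨_, rfl⟩
  rw [← ha] at hdeg hAN
  rw [← hb] at hdeg e3
  have hab : 2 * b ≤ a := by linarith
  -- the class `a Z - b x` is orthogonal to `H` and has square at least zero
  have hY : a • Z - b • D.res j x = 0 := by
    apply D.surfaces.index
    · rw [(hS _).sub, (hS _).zsmul, (hS _).zsmul, ← ha, ← hb, smul_eq_mul, smul_eq_mul, mul_comm,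
        sub_self]
    · have e4 : D.I j (a • Z - b • D.res j x) (a • Z - b • D.res j x) =
          a * a * D.I j Z Z - 2 * a * b * D.I j (D.res j x) Z +
            b * b * D.I j (D.res j x) (D.res j x) := by
        have e6 := fun u => (hS u).sub
        have e7 := fun u => (hS u).zsmul
        simp only [D.I_sub, D.I_smul, e6, e7, smul_eq_mul]
        rw [D.surfaces.symm j Z (D.res j x)]
        ring
      rw [e4, hNN, mul_zero, add_zero]
      have e5 : a * a * D.I j (D.res j x) Z ≤ a * a * D.I j Z Z :=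
        mul_le_mul_of_nonneg_left hZZ (mul_self_nonneg a)
      have e6 : 0 ≤ a * (a - 2 * b) * D.I j (D.res j x) Z :=
        mul_nonneg (mul_nonneg hAN.le (by linarith)) e1
      linarith
  have hr : a • Z = D.res j (b • x) := by
    rw [(D.surfaces.add_res j).zsmul]
    exact sub_eq_zero.1 hY
  obtain ⟨y, hy⟩ := D.surfaces.sat j a Z _ hAN.ne' hr
  refine ⟨y, a, b, e3, hab, ?_, by rw [← hy]; exact hZ⟩
  have h3 : D.res j (a • y - b • x) = 0 := by
    rw [(D.surfaces.add_res j).sub, (D.surfaces.add_res j).zsmul, ← hy, hr, sub_self]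
  exact sub_eq_zero.1 (D.surfaces.inj j _ h3)

/-- the set of the classes `y` with `a y = b x`, `0 < 2 b ≤ a`, is finite -/
private lemma fin_set (x : P) (hpos : 0 < D.T D.H D.H x) :
    {y : P | ∃ a b : ℤ, 0 < b ∧ 2 * b ≤ a ∧ a • y = b • x}.Finite := by
  have key : ∀ (y : P) (a b : ℤ), a • y = b • x →
      a * D.T D.H D.H y = b * D.T D.H D.H x := by
    intro y a b h
    have h1 := congrArg (D.T D.H D.H) h
    rw [(D.lines.add_T _ _).zsmul, (D.lines.add_T _ _).zsmul, smul_eq_mul, smul_eq_mul] at h1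
    exact h1
  refine Set.Finite.of_finite_fibers (f := fun y => D.T D.H D.H y) ?_ ?_
  · refine (Set.finite_Icc (0 : ℤ) (D.T D.H D.H x)).subset ?_
    rintro _ ⟨y, ⟨a, b, hb, hab, h⟩, rfl⟩
    have h1 := key y a b h
    have ha : 0 < a := by linarith
    constructor
    · by_contra hcon
      push Not at hcon
      have h2 : a * D.T D.H D.H y < 0 := mul_neg_of_pos_of_neg ha hcon
      have h3 : 0 < b * D.T D.H D.H x := mul_pos hb hpos
      linarith
    · by_contra hcon
      push Not at hcon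
      nlinarith
  · rintro _ ⟨y, ⟨a, b, hb, hab, h⟩, rfl⟩
    refine (Set.finite_singleton y).subset ?_
    rintro y' ⟨⟨a', b', hb', hab', h'⟩, heq⟩
    simp only [Set.mem_preimage, Set.mem_singleton_iff] at heq ⊢
    have h1 := key y a b h
    have h2 := key y' a' b' h'
    rw [heq] at h2
    have h3 : a' * b = a * b' := by
      have h4 : D.T D.H D.H x * (a' * b - a * b') = 0 := by
        have h5 : a' * (b * D.T D.H D.H x) = a * (b' * D.T D.H D.H x) := by
          rw [← h1, ← h2]; ring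
        linarith
      rcases mul_eq_zero.1 h4 with h5 | h5
      · exact absurd h5 hpos.ne'
      · linarith
    have ha : 0 < a := by linarith
    have ha' : 0 < a' := by linarith
    have e1 : (a * a') • y = (a' * b) • x := by
      rw [mul_comm a a', mul_smul, h, smul_smul]
    have e2 : (a * a') • y' = (a * b') • x := by
      rw [mul_smul, h', smul_smul]
    refine sub_eq_zero.1 (D.torsion_free _ (a * a') (mul_pos ha ha').ne' ?_)
    rw [smul_sub, e1, e2, h3, sub_self]

/-- Numerical dimension one: if `H^1(Y, -x) ≠ 0` then `x` is semiample. -/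
theorem dim_one (x : P) (hx : D.Nef x) (hx0 : x ≠ 0) (hsq : D.T D.H x x = 0)
    (h1 : D.h 1 (-x) ≠ 0) : D.SA x := by
  have hpos := D.deg_pos x hx hx0 hsq
  have hfin := D.fin_set x hpos
  choose j0 hj0 using D.surfaces.lift
  obtain ⟨J, hJ⟩ := (hfin.image j0).bddAbove
  obtain ⟨y, a, b, hb, hab, hy, hyE⟩ := D.destab x hx hsq hpos h1 J
  have h2 : j0 y ≤ J := hJ ⟨y, ⟨a, b, hb, hab, hy⟩, rfl⟩
  have ha : 0 < a := by linarith
  have h3 := D.coh.h0_mul a y ha (hj0 y J h2 hyE)
  rw [hy] at h3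
  have h4 := D.coh.kmm (b • x) ((D.lines.nef_mul b x hb).2 hx) h3
  exact (D.lines.sa_mul b x hb).1 h4

/-- a nef class with `h^0 + h^2 ≠ 0` is semiample -/
private lemma of_even (x : P) (hx : D.Nef x) (hx0 : x ≠ 0) (h : D.h 0 x ≠ 0 ∨ D.h 2 x ≠ 0) :
    D.SA x := by
  rcases h with h | h
  · exact D.coh.kmm x hx h
  · by_cases hsq : D.T D.H x x = 0
    · refine D.dim_one x hx hx0 hsq ?_
      rw [D.coh.serre]
      exact h
    · exact absurd (D.coh.kv x hx hsq) h

private lemma h3_zero (x : P) (hx : D.Nef x) (hx0 : x ≠ 0) : D.h 3 x = 0 := by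
  have h := D.coh.serre 0 x
  rw [D.coh.h0_neg x hx hx0] at h
  exact h.symm

/-- If `x ≠ 0` is nef and `H^i(Y, x) ≠ 0` for some `i` then `x` is semiample. -/
theorem of_any (x : P) (hx : D.Nef x) (hx0 : x ≠ 0) (i : Fin 4) (h : D.h i x ≠ 0) :
    D.SA x := by
  have h3 := D.h3_zero x hx hx0
  have hr := D.coh.rr x
  have hT := D.lines.nonneg x x x hx hx hx
  have hc := D.lines.miyaoka x hx
  rw [h3] at hr
  by_contra hcon
  have h0 : D.h 0 x = 0 := by
    by_contra h'
    exact hcon (D.of_even x hx hx0 (Or.inl h'))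
  have h2 : D.h 2 x = 0 := by
    by_contra h'
    exact hcon (D.of_even x hx hx0 (Or.inr h'))
  have h1 : D.h 1 x = 0 := by
    rw [h0, h2] at hr
    push_cast at hr
    have : (0 : ℤ) ≤ (D.h 1 x : ℤ) := Int.natCast_nonneg _
    have h5 : (D.h 1 x : ℤ) = 0 := by linarith
    exact_mod_cast h5
  fin_cases i
  · exact h h0
  · exact h h1
  · exact h h2
  · exact h h3

/-- A nef class which is not semiample: the cube and the degree of the second Chern class are zero,
and all nonzero multiples are acyclic. -/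
theorem not_sa (x : P) (hx : D.Nef x) (hs : ¬ D.SA x) :
    D.T x x x = 0 ∧ D.c x = 0 ∧ ∀ (m : ℤ) (i : Fin 4), m ≠ 0 → D.h i (m • x) = 0 := by
  have hx0 : x ≠ 0 := fun h => hs (h ▸ D.lines.sa_zero)
  have hz : ∀ i, D.h i x = 0 := by
    intro i
    by_contra h'
    exact hs (D.of_any x hx hx0 i h')
  have hr := D.coh.rr x
  have hT := D.lines.nonneg x x x hx hx hx
  have hc := D.lines.miyaoka x hx
  rw [hz, hz, hz, hz] at hr
  push_cast at hr
  refine ⟨by linarith, by linarith, ?_⟩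
  have key : ∀ (i : Fin 4) (m : ℤ), 0 < m → D.h i (m • x) = 0 := by
    intro i m hm
    by_contra h
    have h1 : m • x ≠ 0 := by
      intro h'
      apply hs
      rw [← D.lines.sa_mul m x hm, h']
      exact D.lines.sa_zero
    exact hs ((D.lines.sa_mul m x hm).1 (D.of_any _ ((D.lines.nef_mul m x hm).2 hx) h1 i h))
  intro m i hm
  rcases lt_or_gt_of_ne hm with h1 | h1
  · have h2 := key (Fin.rev i) (-m) (by linarith)
    rw [← D.coh.serre, neg_smul, neg_neg] at h2
    exact h2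
  · exact key i m h1

end CY

end SBase

section SInterior

/-- A class which is nef on `X_t` is nef on all but finitely many fibres. -/
theorem Interior.finite {P : Type} [AddCommGroup P] {G : CY P} {B : Type} 
    {Inn : B → Prop} {Nef' : B → P → Prop} (S : Interior G B Inn Nef') (L : P) (hL : G.Nef L) :
    {b : B | ¬ (Inn b ∧ Nef' b L)}.Finite := by
  refine (S.bdry.union (S.chow (G.T S.A S.A L))).subset ?_
  intro b hb
  by_cases hI : Inn b
  · right
    have hN : ¬ Nef' b L := fun h => hb ⟨hI, h⟩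
    obtain ⟨E, l, hR, hl⟩ := S.wilson b L hI hL hN
    refine ⟨hI, E, l, hR, ?_⟩
    have h1 := S.pseff b L E l hI hL hR hl
    have h2 := S.pos b E l hR
    rw [G.lines.add_T, (G.lines.add_T _ _).zsmul, smul_eq_mul] at h1
    nlinarith
  · left
    exact hI

end SInterior

section STerm

open Filter Topology

namespace Run

variable (R : Run)

/-- the multiplicity of the pull back of `N_j` -/
def m (j : ℕ) (E : R.A) : ℝ := R.ordL j E - ∑ i, R.s i * R.ordV j E i

theorem anti_m (E : R.A) : Antitone fun j => R.m j E :=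
  antitone_nat_of_succ_le fun j => R.drop j E

/-- if the sums of the drops, weighted by `1 - d_K / d_i`, are bounded then the sums are -/
theorem limit_bound (e : ℕ → ℝ) (he : ∀ i, 0 ≤ e i) (a b : ℝ)
    (h : ∀ K, ∑ i ∈ Finset.range K, (1 - R.d K / R.d i) * e i ≤ a + R.d K * b) (j : ℕ) :
    ∑ i ∈ Finset.range j, e i ≤ a := by
  have h5 : ∀ K, j ≤ K → ∑ i ∈ Finset.range j, (1 - R.d K / R.d i) * e i ≤ a + R.d K * b := by
    intro K hK
    refine le_trans (Finset.sum_le_sum_of_subset_of_nonneg (Finset.range_mono hK) ?_) (h K)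
    intro i hi _
    have hjK : i < K := Finset.mem_range.1 hi
    have : R.d K / R.d i ≤ 1 := by
      rw [div_le_one (R.pos i)]
      exact R.anti hjK.le
    exact mul_nonneg (by linarith) (he i)
  have h6 : Tendsto (fun K => ∑ i ∈ Finset.range j, (1 - R.d K / R.d i) * e i) atTop
      (𝓝 (∑ i ∈ Finset.range j, (1 - 0 / R.d i) * e i)) := by
    refine tendsto_finsetSum _ fun i _ => ?_
    exact ((tendsto_const_nhds.sub (R.lim.div_const _)).mul_const _)
  have h7 : Tendsto (fun K => a + R.d K * b) atTop (𝓝 (a + 0 * b)) :=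
    tendsto_const_nhds.add (R.lim.mul_const _)
  have h8 := le_of_tendsto_of_tendsto h6 h7 (eventually_atTop.2 ⟨j, fun K hK => h5 K hK⟩)
  simpa using h8

/-- the coefficient of `N_0 + d_j H_0` minus the pull back of `N_j + d_j H_j` -/
theorem coeff (E : R.A) (j K : ℕ) :
    (R.m 0 E + R.d K * R.ordH 0 E) - (R.m j E + R.d K * R.ordH j E) =
      ∑ i ∈ Finset.range j, (1 - R.d K / R.d i) * (R.m i E - R.m (i + 1) E) := by
  induction j with
  | zero => simp
  | succ j ih =>
    rw [Finset.sum_range_succ, ← ih]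
    have h1 := R.triv j E
    have hp := (R.pos j).ne'
    have h2 : R.ordH (j + 1) E = R.ordH j E + (R.m j E - R.m (j + 1) E) / R.d j := by
      field_simp
      unfold m
      linarith
    rw [h2]
    field_simp
    ring

theorem total (E : R.A) (j : ℕ) :
    ∑ i ∈ Finset.range j, (R.m i E - R.m (i + 1) E) = R.m 0 E - R.m j E := by
  induction j with
  | zero => simp
  | succ j ih => rw [Finset.sum_range_succ, ih]; ring

/-- the loss of one prime divisor is bounded -/
theorem bdd (E : R.A) : ∃ c : ℝ, ∀ j, R.m 0 E - R.m j E ≤ c := by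
  obtain ⟨c, hc⟩ := R.zariski E
  refine ⟨c, fun j => ?_⟩
  rw [← total]
  refine R.limit_bound (fun i => R.m i E - R.m (i + 1) E)
    (fun i => sub_nonneg.2 (R.anti_m E (Nat.le_succ i))) c 0 (fun K => ?_) j
  rw [← R.coeff E K K]
  have := hc K
  unfold m
  linarith

/-- the total loss of the surfaces of `YY_0` is bounded -/
theorem bdd_sum (i : R.I) (S : Finset R.A) (hS : ∀ E ∈ S, R.Surf 0 E ∧ R.On E i) (j : ℕ) :
    ∑ E ∈ S, (R.m 0 E - R.m j E) ≤ R.n i := by
  have h1 : ∑ E ∈ S, (R.m 0 E - R.m j E) =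
      ∑ l ∈ Finset.range j, ∑ E ∈ S, (R.m l E - R.m (l + 1) E) := by
    rw [Finset.sum_comm]
    exact Finset.sum_congr rfl fun E _ => (R.total E j).symm
  rw [h1]
  refine R.limit_bound (fun l => ∑ E ∈ S, (R.m l E - R.m (l + 1) E)) (fun l =>
    Finset.sum_nonneg fun E _ => sub_nonneg.2 (R.anti_m E (Nat.le_succ l))) (R.n i) (R.h i)
    (fun K => ?_) j
  have h2 : ∑ l ∈ Finset.range K, (1 - R.d K / R.d l) * ∑ E ∈ S, (R.m l E - R.m (l + 1) E) =
      ∑ E ∈ S, ((R.m 0 E + R.d K * R.ordH 0 E) - (R.m K E + R.d K * R.ordH K E)) := by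
    rw [Finset.sum_congr rfl fun E _ => R.coeff E K K, Finset.sum_comm]
    exact Finset.sum_congr rfl fun l _ => Finset.mul_sum _ _ _
  rw [h2]
  exact R.bound i K S hS

/-- the positive values of `z - Σ s_i v_i`, `|v_i| ≤ 2`, are bounded below by a positive number -/
theorem exists_gap : ∃ c : ℝ, 0 < c ∧ ∀ (z : ℤ) (v : R.I → ℤ), (∀ i, |v i| ≤ 2) →
    0 < (z : ℝ) - ∑ i, R.s i * v i → c ≤ (z : ℝ) - ∑ i, R.s i * v i := by
  classical
  have hfin : {f : R.I → ℤ | ∀ i, f i ∈ Set.Icc (-2 : ℤ) 2}.Finite :=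
    Set.Finite.pi' fun _ => Set.finite_Icc _ _
  have h1 : ∀ r : ℝ, ∃ c : ℝ, 0 < c ∧ ∀ z : ℤ, 0 < (z : ℝ) - r → c ≤ (z : ℝ) - r := by
    intro r
    refine ⟨(⌊r⌋ + 1 : ℤ) - r, ?_, fun z hz => ?_⟩
    · push_cast
      linarith [Int.lt_floor_add_one r]
    · have h2 : ⌊r⌋ < z := Int.floor_lt.2 (by linarith)
      have h3 : ⌊r⌋ + 1 ≤ z := h2
      have h4 : ((⌊r⌋ + 1 : ℤ) : ℝ) ≤ z := by exact_mod_cast h3
      linarith
  choose c hc0 hc using h1
  let T : Finset (R.I → ℤ) := hfin.toFinset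
  have hT : T.Nonempty := ⟨0, hfin.mem_toFinset.2 fun i => by simp⟩
  refine ⟨T.inf' hT fun v => c (∑ i, R.s i * v i), ?_, ?_⟩
  · rw [Finset.lt_inf'_iff]
    exact fun v _ => hc0 _
  · intro z v hv hpos
    have hvT : v ∈ T := hfin.mem_toFinset.2 fun i => abs_le.1 (hv i)
    exact (Finset.inf'_le _ hvT).trans (hc _ z hpos)

/-- between two times when the centre is a surface the loss is zero or at least `c` -/
theorem gap {c : ℝ} (hc : ∀ (z : ℤ) (v : R.I → ℤ), (∀ i, |v i| ≤ 2) →
    0 < (z : ℝ) - ∑ i, R.s i * v i → c ≤ (z : ℝ) - ∑ i, R.s i * v i) {i j : ℕ} {E : R.A}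
    (hi : R.Surf i E) (hj : R.Surf j E) (h : R.m j E < R.m i E) : c ≤ R.m i E - R.m j E := by
  obtain ⟨a, ha⟩ := R.intL i E hi
  obtain ⟨b, hb⟩ := R.intL j E hj
  have hv := fun k => R.intV i E k hi
  have hw := fun k => R.intV j E k hj
  choose v hv using hv
  choose w hw using hw
  have h1 : R.m i E - R.m j E = ((a - b : ℤ) : ℝ) - ∑ k, R.s k * ((v k - w k : ℤ) : ℝ) := by
    unfold m
    rw [ha, hb]
    have : ∑ k, R.s k * ((v k - w k : ℤ) : ℝ) =
        ∑ k, R.s k * R.ordV i E k - ∑ k, R.s k * R.ordV j E k := by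
      rw [← Finset.sum_sub_distrib]
      refine Finset.sum_congr rfl fun k _ => ?_
      rw [(hv k).1, (hw k).1]
      push_cast
      ring
    rw [this]
    push_cast
    ring
  rw [h1]
  refine hc _ (fun k => v k - w k) (fun k => ?_) ?_
  · have := (hv k).2
    have := (hw k).2
    rw [abs_le]
    constructor <;> omega
  · change 0 < ((a - b : ℤ) : ℝ) - ∑ k, R.s k * ((v k - w k : ℤ) : ℝ)
    rw [← h1]
    linarith

/-- the prime divisors which lose at least `c` are finitely many -/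
theorem finite_losing {c : ℝ} (hc : 0 < c) :
    {E | ¬ R.Surf 0 E ∨ ∃ j, c ≤ R.m 0 E - R.m j E}.Finite := by
  have h1 : ∀ i, {E | R.Surf 0 E ∧ R.On E i ∧ ∃ j, c ≤ R.m 0 E - R.m j E}.Finite := by
    intro i
    by_contra hinf
    obtain ⟨N, hN⟩ := exists_nat_gt (R.n i / c)
    obtain ⟨S, hS, hcard⟩ := (show Set.Infinite _ from hinf).exists_subset_card_eq N
    have hS' : ∀ E ∈ S, ∃ j, c ≤ R.m 0 E - R.m j E := fun E hE => (hS hE).2.2
    choose! k hk using hS'
    have h2 : (N : ℝ) * c ≤ ∑ E ∈ S, (R.m 0 E - R.m (S.sup k) E) := by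
      rw [← hcard, ← nsmul_eq_mul]
      refine Finset.card_nsmul_le_sum _ _ _ fun E hE => ?_
      have h3 : R.m (S.sup k) E ≤ R.m (k E) E := R.anti_m E (Finset.le_sup hE)
      linarith [hk E hE]
    have h3 := R.bdd_sum i S (fun E hE => ⟨(hS hE).1, (hS hE).2.1⟩) (S.sup k)
    rw [div_lt_iff₀ hc] at hN
    linarith
  refine (R.off.union (Set.finite_iUnion h1)).subset ?_
  rintro E (h | h)
  · exact Or.inl h
  · by_cases h0 : R.Surf 0 E
    · obtain ⟨i, hi⟩ := R.on E
      exact Or.inr (Set.mem_iUnion.2 ⟨i, h0, hi, h⟩)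
    · exact Or.inl h0

/-- TERMINATION: there is no infinite sequence of steps. -/
theorem false (R : Run) : False := by
  classical
  obtain ⟨c, hc0, hc⟩ := R.exists_gap
  -- each prime divisor: after finitely many steps its centre is not a surface after a step which
  -- involves it
  have h1 : ∀ E, ∃ J, ∀ j, J ≤ j → R.Inv j E → ∀ i, j < i → ¬ R.Surf i E := by
    intro E
    by_contra hcon
    push Not at hcon
    have h2 : ∀ k : ℕ, ∃ t, R.Surf t E ∧ (k : ℝ) * c ≤ R.m 0 E - R.m t E := by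
      intro k
      induction k with
      | zero =>
        obtain ⟨j, -, -, i, -, hi⟩ := hcon 0
        refine ⟨i, hi, ?_⟩
        have := R.anti_m E (Nat.zero_le i)
        simp only at this
        push_cast
        linarith
      | succ k ih =>
        obtain ⟨t, ht, hk⟩ := ih
        obtain ⟨j, hj, hinv, i, hji, hi⟩ := hcon t
        have h3 : R.m i E < R.m t E := by
          have h4 := R.anti_m E hj
          have h5 := R.anti_m E (show j + 1 ≤ i from hji)
          have h6 := R.drop_lt j E hinv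
          simp only at h4 h5
          have h7 : R.m (j + 1) E < R.m j E := h6
          linarith
        have h4 := R.gap hc ht hi h3
        refine ⟨i, hi, ?_⟩
        push_cast
        linarith
    obtain ⟨b, hb⟩ := R.bdd E
    obtain ⟨k, hk⟩ := exists_nat_gt (b / c)
    obtain ⟨t, -, ht⟩ := h2 k
    rw [div_lt_iff₀ hc0] at hk
    linarith [hb t]
  choose J hJ using h1
  -- a common bound
  have h2 : ∃ K, ∀ E, ∀ j, K ≤ j → R.Inv j E → ¬ R.Surf (j + 1) E := by
    let T := (R.finite_losing hc0).toFinset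
    refine ⟨T.sup J, fun E j hj hinv hs => ?_⟩
    by_cases hE : E ∈ T
    · exact hJ E j ((Finset.le_sup hE).trans hj) hinv (j + 1) (Nat.lt_succ_self j) hs
    · have hE' : ¬ (¬ R.Surf 0 E ∨ ∃ j, c ≤ R.m 0 E - R.m j E) := fun h =>
        hE ((R.finite_losing hc0).mem_toFinset.2 h)
      rw [not_or, not_not, not_exists] at hE'
      obtain ⟨h0, hlose⟩ := hE'
      have hex : ∃ j, R.Inv j E := ⟨j, hinv⟩
      have hle : Nat.find hex ≤ j := Nat.find_min' hex hinv
      have hsurf : ∀ i, i ≤ Nat.find hex → R.Surf i E := by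
        intro i
        induction i with
        | zero => exact fun _ => h0
        | succ i ih => exact fun h => R.keep i E (Nat.find_min hex h) (ih (Nat.le_of_succ_le h))
      have h3 := R.anti_m E (show Nat.find hex + 1 ≤ j + 1 by omega)
      have h4 : R.m (Nat.find hex + 1) E < R.m (Nat.find hex) E :=
        R.drop_lt _ E (Nat.find_spec hex)
      simp only at h3
      have h5 := R.gap hc (hsurf _ le_rfl) hs (lt_of_le_of_lt h3 h4)
      have h6 := R.anti_m E (Nat.zero_le (Nat.find hex))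
      simp only at h6
      exact hlose (j + 1) (by linarith)
  obtain ⟨K, hK⟩ := h2
  have h3 : ∀ k, R.rk (K + k) + k ≤ R.rk K := by
    intro k
    induction k with
    | zero => simp
    | succ k ih =>
      have := R.kmm (K + k) fun E hE => hK E (K + k) (Nat.le_add_right K k) hE
      have h4 : K + (k + 1) = K + k + 1 := rfl
      rw [h4]
      omega
  have := h3 (R.rk K + 1)
  omega

end Run

end STerm

section SRat

open scoped BigOperators

/-- The identity of finitely many real numbers is approximated by a `ℚ`-linear map `ℝ → ℚ` which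
fixes `1`. -/
theorem exists_approx (S : Finset ℝ) (ε : ℝ) (hε : 0 < ε) :
    ∃ φ : ℝ →ₗ[ℚ] ℚ, φ 1 = 1 ∧ ∀ x ∈ S, |(φ x : ℝ) - x| < ε := by
  classical
  have hli : LinearIndepOn ℚ id ({1} : Set ℝ) := by
    rw [linearIndepOn_singleton_iff]
    exact one_ne_zero
  let b := Module.Basis.extend hli
  have h1 : (1 : ℝ) ∈ hli.extend (Set.subset_univ _) :=
    hli.subset_extend _ (Set.mem_singleton 1)
  let i1 : ↥(hli.extend (Set.subset_univ _)) := ⟨1, h1⟩
  have hb : ∀ i, b i = (i : ℝ) := fun i => Module.Basis.extend_apply_self hli i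
  -- a bound for the coordinates
  obtain ⟨K, hK0, hK⟩ : ∃ K : ℝ, 0 < K ∧ ∀ x ∈ S,
      ∑ i ∈ (b.repr x).support, |((b.repr x i : ℚ) : ℝ)| ≤ K := by
    refine ⟨1 + ∑ x ∈ S, ∑ i ∈ (b.repr x).support, |((b.repr x i : ℚ) : ℝ)|, ?_, ?_⟩
    · have : 0 ≤ ∑ x ∈ S, ∑ i ∈ (b.repr x).support, |((b.repr x i : ℚ) : ℝ)| :=
        Finset.sum_nonneg fun x _ => Finset.sum_nonneg fun i _ => abs_nonneg _
      linarith
    · intro x hx
      have := Finset.single_le_sum (f := fun x => ∑ i ∈ (b.repr x).support,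
        |((b.repr x i : ℚ) : ℝ)|) (fun y _ => Finset.sum_nonneg fun i _ => abs_nonneg _) hx
      linarith
  have happ : ∀ i : ↥(hli.extend (Set.subset_univ _)), ∃ q : ℚ, |(q : ℝ) - (i : ℝ)| < ε / (2 * K) ∧
      (i = i1 → q = 1) := by
    intro i
    by_cases hi : i = i1
    · refine ⟨1, ?_, fun _ => rfl⟩
      rw [hi]
      simp only [i1, Rat.cast_one, sub_self, abs_zero]
      positivity
    · obtain ⟨q, hq1, hq2⟩ := exists_rat_btwn (show (i : ℝ) - ε / (2 * K) < (i : ℝ) by
        have : 0 < ε / (2 * K) := by positivity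
        linarith)
      refine ⟨q, ?_, fun h => absurd h hi⟩
      rw [abs_lt]
      constructor <;> linarith
  choose q hq hq1 using happ
  let φ : ℝ →ₗ[ℚ] ℚ := b.constr ℚ q
  have hφ : ∀ i : ↥(hli.extend (Set.subset_univ _)), φ (i : ℝ) = q i := by
    intro i
    rw [← hb i]
    exact b.constr_basis ℚ q i
  refine ⟨φ, ?_, ?_⟩
  · have := hφ i1
    rw [hq1 i1 rfl] at this
    exact this
  · intro x hx
    have hx1 : x = ∑ i ∈ (b.repr x).support, ((b.repr x i : ℚ) : ℝ) * (i : ℝ) := by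
      conv_lhs => rw [← b.linearCombination_repr x, Finsupp.linearCombination_apply, Finsupp.sum]
      refine Finset.sum_congr rfl fun i _ => ?_
      rw [hb, Rat.smul_def]
    have hx2 : (φ x : ℝ) = ∑ i ∈ (b.repr x).support, ((b.repr x i : ℚ) : ℝ) * (q i : ℝ) := by
      have : φ x = ∑ i ∈ (b.repr x).support, b.repr x i * q i := by
        conv_lhs => rw [← b.linearCombination_repr x, Finsupp.linearCombination_apply,
          Finsupp.sum, map_sum]
        refine Finset.sum_congr rfl fun i _ => ?_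
        rw [map_smul, hb, hφ, smul_eq_mul]
      rw [this]
      push_cast
      rfl
    have hx3 : (φ x : ℝ) - x = ∑ i ∈ (b.repr x).support,
        ((b.repr x i : ℚ) : ℝ) * ((q i : ℝ) - (i : ℝ)) := by
      have hx4 : (φ x : ℝ) - x = (∑ i ∈ (b.repr x).support, ((b.repr x i : ℚ) : ℝ) * (q i : ℝ)) -
          ∑ i ∈ (b.repr x).support, ((b.repr x i : ℚ) : ℝ) * (i : ℝ) := by
        rw [← hx1, hx2]
      rw [hx4, ← Finset.sum_sub_distrib]
      exact Finset.sum_congr rfl fun i _ => by ring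
    rw [hx3]
    refine lt_of_le_of_lt (Finset.abs_sum_le_sum_abs _ _) ?_
    have h4 : ∑ i ∈ (b.repr x).support, |((b.repr x i : ℚ) : ℝ) * ((q i : ℝ) - (i : ℝ))| ≤
        ∑ i ∈ (b.repr x).support, |((b.repr x i : ℚ) : ℝ)| * (ε / (2 * K)) := by
      refine Finset.sum_le_sum fun i _ => ?_
      rw [abs_mul]
      exact mul_le_mul_of_nonneg_left (hq i).le (abs_nonneg _)
    rw [← Finset.sum_mul] at h4
    have h5 := hK x hx
    have h6 : (∑ i ∈ (b.repr x).support, |((b.repr x i : ℚ) : ℝ)|) * (ε / (2 * K)) ≤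
        K * (ε / (2 * K)) := mul_le_mul_of_nonneg_right h5 (by positivity)
    have h7 : K * (ε / (2 * K)) = ε / 2 := by field_simp
    linarith

/-- A finite system of linear inequalities with rational coefficients which has a real solution has
a rational solution. -/
theorem exists_rat_of_finite {ι J : Type} [Fintype ι] [Finite J] (a : J → ι → ℚ) (b : J → ℚ)
    (s : ι → ℝ) (hs : ∀ j, ∑ i, (a j i : ℝ) * s i ≤ (b j : ℝ)) :
    ∃ q : ι → ℚ, ∀ j, ∑ i, a j i * q i ≤ b j := by
  classical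
  have := Fintype.ofFinite J
  -- the smallest gap
  obtain ⟨g, hg0, hg⟩ : ∃ g : ℝ, 0 < g ∧ ∀ j, ∑ i, (a j i : ℝ) * s i < b j →
      g ≤ b j - ∑ i, (a j i : ℝ) * s i := by
    refine ⟨(insert 1 ((Finset.univ.filter fun j => ∑ i, (a j i : ℝ) * s i < b j).image
      fun j => (b j : ℝ) - ∑ i, (a j i : ℝ) * s i)).min' ⟨1, Finset.mem_insert_self _ _⟩, ?_, ?_⟩
    · rw [Finset.lt_min'_iff]
      intro y hy
      rcases Finset.mem_insert.1 hy with rfl | hy
      · exact one_pos
      · obtain ⟨j, hj, rfl⟩ := Finset.mem_image.1 hy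
        exact sub_pos.2 (Finset.mem_filter.1 hj).2
    · intro j hj
      refine Finset.min'_le _ _ (Finset.mem_insert_of_mem (Finset.mem_image.2 ⟨j, ?_, rfl⟩))
      exact Finset.mem_filter.2 ⟨Finset.mem_univ _, hj⟩
  let S : Finset ℝ := Finset.univ.image fun j => ∑ i, (a j i : ℝ) * s i
  obtain ⟨φ, hφ1, hφ⟩ := exists_approx S g hg0
  have hφq : ∀ c : ℚ, φ (c : ℝ) = c := by
    intro c
    have : (c : ℝ) = c • (1 : ℝ) := by rw [Rat.smul_def, mul_one]
    rw [this, map_smul, hφ1, smul_eq_mul, mul_one]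
  refine ⟨fun i => φ (s i), fun j => ?_⟩
  have h1 : ∑ i, a j i * φ (s i) = φ (∑ i, (a j i : ℝ) * s i) := by
    rw [map_sum]
    refine Finset.sum_congr rfl fun i _ => ?_
    rw [← Rat.smul_def, map_smul, smul_eq_mul]
  rw [h1]
  rcases eq_or_lt_of_le (hs j) with h2 | h2
  · rw [h2, hφq]
  · have h3 := hg j h2
    have h4 := hφ _ (Finset.mem_image.2 ⟨j, Finset.mem_univ _, rfl⟩)
    have h5 := (abs_lt.1 h4).2
    have h6 : ((φ (∑ i, (a j i : ℝ) * s i) : ℚ) : ℝ) ≤ b j := by linarith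
    exact_mod_cast h6

/-- **Rationality of the vertical coefficients.** Let `Φ` be a set of inequalities
`∑ v F i * s i ≤ l F` such that the vectors `v F` form a finite set of rational vectors and the
numbers `l F` have a common denominator. If there is a real solution then there is a rational
solution. -/
theorem exists_rat {ι Φ : Type} [Fintype ι] (v : Φ → ι → ℚ) (l : Φ → ℚ)
    (hv : (Set.range v).Finite) (m : ℕ) (hm : 0 < m) (hl : ∀ F, ∃ z : ℤ, (m : ℚ) * l F = z)
    (s : ι → ℝ) (hs : ∀ F, ∑ i, (v F i : ℝ) * s i ≤ (l F : ℝ)) :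
    ∃ q : ι → ℚ, ∀ F, ∑ i, v F i * q i ≤ l F := by
  classical
  -- for each vector the smallest constant
  have hmin : ∀ w : Set.range v, ∃ F : Φ, v F = w ∧ ∀ F', v F' = w → l F ≤ l F' := by
    rintro ⟨w, F0, hF0⟩
    choose z hz using hl
    -- the integers `z F` with `v F = w` are bounded below
    have hm' : (0 : ℝ) < m := by exact_mod_cast hm
    have hbd : ∀ F, v F = w → ⌊(m : ℝ) * ∑ i, (w i : ℝ) * s i⌋ ≤ z F := by
      intro F hF
      have h1 := hs F
      rw [hF] at h1
      have h2 : (m : ℝ) * l F = z F := by exact_mod_cast hz F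
      have h3 : (m : ℝ) * ∑ i, (w i : ℝ) * s i ≤ z F := by
        rw [← h2]
        exact mul_le_mul_of_nonneg_left h1 hm'.le
      have h4 := Int.floor_le ((m : ℝ) * ∑ i, (w i : ℝ) * s i)
      have h5 : ((⌊(m : ℝ) * ∑ i, (w i : ℝ) * s i⌋ : ℤ) : ℝ) ≤ (z F : ℝ) := le_trans h4 h3
      exact_mod_cast h5
    obtain ⟨y, ⟨F, hF, rfl⟩, hy⟩ := Int.exists_least_of_bdd
      (P := fun y => ∃ F, v F = w ∧ z F = y)
      ⟨⌊(m : ℝ) * ∑ i, (w i : ℝ) * s i⌋, by rintro y ⟨F, hF, rfl⟩; exact hbd F hF⟩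
      ⟨z F0, F0, hF0, rfl⟩
    refine ⟨F, hF, fun F' hF' => ?_⟩
    have h6 := hy (z F') ⟨F', hF', rfl⟩
    have h7 : (m : ℚ) * l F ≤ (m : ℚ) * l F' := by
      rw [hz, hz]
      exact_mod_cast h6
    have hm'' : (0 : ℚ) < m := by exact_mod_cast hm
    exact le_of_mul_le_mul_left h7 hm''
  choose F hF hFmin using hmin
  have : Finite (Set.range v) := hv.to_subtype
  obtain ⟨q, hq⟩ := exists_rat_of_finite (fun w : Set.range v => (w : ι → ℚ))
    (fun w => l (F w)) s (fun w => by
      have := hs (F w)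
      rw [hF w] at this
      exact this)
  exact ⟨q, fun G => (hq ⟨v G, G, rfl⟩).trans (hFmin ⟨v G, G, rfl⟩ G rfl)⟩

end SRat

section SNefModel

open Filter Topology

namespace NefGerm

variable {P Lam : Type} [AddCommGroup P] [AddCommGroup Lam] {g : Germ P Lam} {NefG : P → Prop}
  {N : Type} [NormedAddCommGroup N] [NormedSpace ℝ N] (S : NefGerm g NefG N)

/-- the vertical coefficients for which the class is movable after adding `d H` -/
def K (x : Lam) (d : ℝ) : Set (Fin S.n → ℝ) := {s | S.tw x s d ∈ S.Mov}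

theorem continuous_tw (x : Lam) (d : ℝ) : Continuous fun s => S.tw x s d := by
  simp only [S.tw_eq]
  fun_prop

theorem isClosed_K (x : Lam) (d : ℝ) : IsClosed (S.K x d) :=
  S.closed.preimage (S.continuous_tw x d)

theorem K_anti (x : Lam) {d e : ℝ} (h : d ≤ e) : S.K x d ⊆ S.K x e := by
  intro s hs
  have h1 := S.add_mem _ _ hs (S.smul_mem (e - d) S.H (sub_nonneg.2 h) S.H_mem)
  have h2 : S.tw x s d + (e - d) • S.H = S.tw x s e := by
    simp only [S.tw_eq]
    rw [add_assoc, ← add_smul]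
    congr 2
    ring
  rw [h2] at h1
  exact h1

/-- the vertical coefficients are bounded -/
theorem isBounded_K (x : Lam) (d : ℝ) : Bornology.IsBounded (S.K x d) := by
  by_contra hb
  -- a sequence of elements of norm at least `n + 1`
  have h1 : ∀ n : ℕ, ∃ s ∈ S.K x d, (n : ℝ) + 1 ≤ ‖s‖ := by
    intro n
    by_contra hcon
    push Not at hcon
    exact hb (isBounded_iff_forall_norm_le.2 ⟨(n : ℝ) + 1, fun s hs => (hcon s hs).le⟩)
  choose s hs hn using h1
  have hpos : ∀ n, 0 < ‖s n‖ := fun n => lt_of_lt_of_le (by positivity) (hn n)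
  -- the directions
  let u : ℕ → Fin S.n → ℝ := fun n => (‖s n‖)⁻¹ • s n
  have hu : ∀ n, u n ∈ Metric.sphere (0 : Fin S.n → ℝ) 1 := by
    intro n
    rw [mem_sphere_zero_iff_norm]
    simp only [u, norm_smul, norm_inv, norm_norm]
    exact inv_mul_cancel₀ (hpos n).ne'
  obtain ⟨v, hv, φ, hφ, hlim⟩ := (isCompact_sphere (0 : Fin S.n → ℝ) 1).tendsto_subseq hu
  have hinv : Tendsto (fun n => (‖s (φ n)‖)⁻¹) atTop (𝓝 0) := by
    refine Tendsto.inv_tendsto_atTop (tendsto_atTop_mono (fun n => ?_)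
      (tendsto_natCast_atTop_atTop (R := ℝ)))
    have h2 := hn (φ n)
    have h3 : (n : ℝ) ≤ φ n := by exact_mod_cast hφ.id_le n
    linarith
  have hmem : ∀ n, (‖s (φ n)‖)⁻¹ • S.cl x - ∑ i, u (φ n) i • S.cl (S.V i) +
      ((‖s (φ n)‖)⁻¹ * d) • S.H ∈ S.Mov := by
    intro n
    have h2 := S.smul_mem (‖s (φ n)‖)⁻¹ _ (inv_nonneg.2 (norm_nonneg _)) (hs (φ n))
    have h3 : (‖s (φ n)‖)⁻¹ • S.tw x (s (φ n)) d =
        (‖s (φ n)‖)⁻¹ • S.cl x - ∑ i, u (φ n) i • S.cl (S.V i) +
          ((‖s (φ n)‖)⁻¹ * d) • S.H := by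
      simp only [S.tw_eq, u, smul_add, smul_sub, Finset.smul_sum, smul_smul, Pi.smul_apply,
        smul_eq_mul]
    rw [h3] at h2
    exact h2
  have hl1 : Tendsto (fun n => (‖s (φ n)‖)⁻¹ • S.cl x - ∑ i, u (φ n) i • S.cl (S.V i) +
      ((‖s (φ n)‖)⁻¹ * d) • S.H) atTop
      (𝓝 ((0 : ℝ) • S.cl x - ∑ i, v i • S.cl (S.V i) + ((0 : ℝ) * d) • S.H)) := by
    refine Tendsto.add (Tendsto.sub (hinv.smul_const _) (tendsto_finsetSum _ fun i _ => ?_))
      ((hinv.mul_const d).smul_const _)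
    exact ((tendsto_pi_nhds.1 hlim) i).smul_const _
  have h4 := S.closed.mem_of_tendsto hl1 (Eventually.of_forall hmem)
  have h5 := S.neg v (by
    simp only [S.tw_eq]
    rw [zero_smul, zero_mul] at h4
    rw [map_zero]
    exact h4)
  have h6 : v = 0 := funext h5
  rw [h6, mem_sphere_zero_iff_norm, norm_zero] at hv
  exact zero_ne_one hv

theorem isCompact_K (x : Lam) (d : ℝ) : IsCompact (S.K x d) :=
  Metric.isCompact_of_isClosed_isBounded (S.isClosed_K x d) (S.isBounded_K x d)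

/-- there are real vertical coefficients which are good for all `d > 0` -/
theorem exists_real (x : Lam) (hx : NefG (g.rho x)) : ∃ s, ∀ d : ℝ, 0 < d → s ∈ S.K x d := by
  have h1 : (⋂ n : ℕ, S.K x (1 / ((n : ℝ) + 1))).Nonempty := by
    refine IsCompact.nonempty_iInter_of_sequence_nonempty_isCompact_isClosed _ ?_ ?_ ?_ ?_
    · intro n
      refine S.K_anti x ?_
      push_cast
      exact one_div_le_one_div_of_le (by positivity) (by linarith)
    · intro n
      obtain ⟨s, hs⟩ := S.gen x hx (n + 1) (Nat.succ_pos n)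
      refine ⟨s, ?_⟩
      change S.tw x s (1 / ((n : ℝ) + 1)) ∈ S.Mov
      push_cast at hs
      exact hs
    · exact S.isCompact_K x _
    · exact fun n => S.isClosed_K x _
  obtain ⟨s, hs⟩ := h1
  refine ⟨s, fun d hd => ?_⟩
  obtain ⟨n, hn⟩ := exists_nat_one_div_lt hd
  exact S.K_anti x hn.le (Set.mem_iInter.1 hs n)

/-- the intersection number as a linear form -/
noncomputable def lin (mu : g.Mo) (C : S.Ray mu) : N →ₗ[ℝ] ℝ where
  toFun := S.deg mu C
  map_add' := S.deg_add mu C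
  map_smul' := S.deg_smul mu C

theorem deg_tw (mu : g.Mo) (C : S.Ray mu) (x : Lam) (s : Fin S.n → ℝ) :
    S.deg mu C (S.tw x s 0) =
      S.deg mu C (S.cl x) - ∑ i, s i * S.deg mu C (S.cl (S.V i)) := by
  change S.lin mu C (S.tw x s 0) = S.lin mu C (S.cl x) - ∑ i, s i * S.lin mu C (S.cl (S.V i))
  simp only [S.tw_eq, map_add, map_sub, map_sum, map_smul, smul_eq_mul, zero_mul, add_zero]

/-- RATIONALITY: on the model on which `x - Σ s_i V_i` is nef there are rational coefficients. -/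
theorem exists_rational (x : Lam) (mu : g.Mo) (s : Fin S.n → ℝ) (hs : S.NefR mu (S.tw x s 0)) :
    ∃ q : Fin S.n → ℚ, S.NefR mu (S.tw x (fun i => (q i : ℝ)) 0) := by
  classical
  choose z hz using S.int mu
  have hm : (0 : ℝ) < S.ind mu := by exact_mod_cast S.ind_pos mu
  have hdeg : ∀ C y, S.deg mu C (S.cl y) = (((z C y : ℚ) / S.ind mu : ℚ) : ℝ) := by
    intro C y
    push_cast
    rw [eq_div_iff hm.ne', mul_comm]
    exact hz C y
  -- the real solution
  have h1 : ∀ C, ∑ i, ((((z C (S.V i) : ℚ) / S.ind mu : ℚ)) : ℝ) * s i ≤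
      (((z C x : ℚ) / S.ind mu : ℚ) : ℝ) := by
    intro C
    have h3 := S.deg_nef mu C _ hs
    rw [deg_tw] at h3
    have h6 : ∑ i, ((((z C (S.V i) : ℚ) / S.ind mu : ℚ)) : ℝ) * s i =
        ∑ i, s i * S.deg mu C (S.cl (S.V i)) := by
      refine Finset.sum_congr rfl fun i _ => ?_
      rw [hdeg, mul_comm]
    rw [h6, ← hdeg]
    linarith
  -- finitely many vectors
  have hfin : (Set.range fun (C : S.Ray mu) (i : Fin S.n) =>
      ((z C (S.V i) : ℚ) / S.ind mu : ℚ)).Finite := by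
    have h2 : (Set.range fun (C : S.Ray mu) (i : Fin S.n) => ((z C (S.V i) : ℚ) / S.ind mu : ℚ)) ⊆
        {f | ∀ i, f i ∈ (fun y : ℤ => (y : ℚ) / S.ind mu) ''
          (Set.Icc (-(S.ind mu * 6 : ℤ)) (S.ind mu * 6 : ℤ))} := by
      rintro w ⟨C, rfl⟩ i
      refine ⟨z C (S.V i), ?_, rfl⟩
      have h3 := abs_le.1 (S.bound mu C i)
      have h4 := hz C (S.V i)
      have h5 : (z C (S.V i) : ℝ) ≤ S.ind mu * 6 := by
        rw [← h4]
        exact mul_le_mul_of_nonneg_left h3.2 hm.le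
      have h6 : -((S.ind mu : ℝ) * 6) ≤ z C (S.V i) := by
        rw [← h4, ← mul_neg]
        exact mul_le_mul_of_nonneg_left h3.1 hm.le
      constructor
      · have : ((-(S.ind mu * 6 : ℤ) : ℤ) : ℝ) ≤ (z C (S.V i) : ℝ) := by
          push_cast
          exact h6
        exact_mod_cast this
      · have : (z C (S.V i) : ℝ) ≤ ((S.ind mu * 6 : ℤ) : ℝ) := by
          push_cast
          exact h5
        exact_mod_cast this
    exact (Set.Finite.pi' fun _ => (Set.finite_Icc _ _).image _).subset h2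
  obtain ⟨q, hq⟩ := exists_rat
    (fun (C : S.Ray mu) (i : Fin S.n) => ((z C (S.V i) : ℚ) / S.ind mu : ℚ))
    (fun C => (z C x : ℚ) / S.ind mu) hfin (S.ind mu) (S.ind_pos mu)
    (fun C => ⟨z C x, by
      have : (S.ind mu : ℚ) ≠ 0 := by exact_mod_cast (S.ind_pos mu).ne'
      field_simp⟩) s h1
  refine ⟨q, S.cone mu x s _ hs fun C => ?_⟩
  have h7 : ∑ i, (q i : ℝ) * S.deg mu C (S.cl (S.V i)) ≤ S.deg mu C (S.cl x) := by
    have h8 : ((∑ i, ((z C (S.V i) : ℚ) / S.ind mu : ℚ) * q i : ℚ) : ℝ) ≤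
        (((z C x : ℚ) / S.ind mu : ℚ) : ℝ) := by exact_mod_cast hq C
    rw [hdeg C x]
    refine le_trans (le_of_eq ?_) h8
    rw [Rat.cast_sum]
    refine Finset.sum_congr rfl fun i _ => ?_
    rw [hdeg, Rat.cast_mul, mul_comm]
  rw [deg_tw]
  linarith

/-- finitely many rational numbers have a common denominator -/
theorem exists_den {ι : Type} [Fintype ι] (q : ι → ℚ) :
    ∃ k : ℕ, 0 < k ∧ ∀ i, ∃ z : ℤ, (k : ℚ) * q i = z := by
  classical
  refine ⟨∏ i, (q i).den, Finset.prod_pos fun i _ => (q i).den_pos, fun i => ?_⟩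
  obtain ⟨c, hc⟩ := Finset.dvd_prod_of_mem (fun i => (q i).den) (Finset.mem_univ i)
  refine ⟨c * (q i).num, ?_⟩
  rw [hc]
  push_cast
  have h1 : ((q i).den : ℚ) * q i = (q i).num := by
    rw [mul_comm]
    exact Rat.mul_den_eq_num (q i)
  calc ((q i).den : ℚ) * c * q i = c * (((q i).den : ℚ) * q i) := by ring
    _ = c * (q i).num := by rw [h1]

include S in

/-- **Nef extension.** A positive multiple of a nef class `L` of the generic fibre extends to a
Cartier class of some model which is nef over the base. -/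
theorem nef (L : P) (hL : NefG L) (y : Lam) (hy : g.rho y = L)
    (hq : ∀ mu x, ∃ k : ℕ, 0 < k ∧ ∀ j : ℕ, g.Car mu (j • k • x)) :
    ∃ (mu : g.Mo) (k : ℕ) (x : Lam), 0 < k ∧ g.rho x = k • L ∧ g.Nef mu x ∧
      ∀ j : ℕ, 0 < j → g.Car mu (j • x) := by
  obtain ⟨s, hs⟩ := S.exists_real y (by rw [hy]; exact hL)
  rcases S.mmp y s (by rw [hy]; exact hL) hs with ⟨mu, hmu⟩ | ⟨⟨R⟩⟩
  swap
  · exact R.false.elim
  obtain ⟨q, hqn⟩ := S.exists_rational y mu s hmu
  obtain ⟨k, hk, hkz⟩ := exists_den q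
  choose z hz using hkz
  -- an integral class
  obtain ⟨x, hxdef⟩ : ∃ x : Lam, x = k • y - ∑ i, z i • S.V i := ⟨_, rfl⟩
  have hx : g.rho x = k • L := by
    rw [hxdef]
    simp only [map_sub, map_nsmul, map_sum, map_zsmul, S.rho_V, smul_zero,
      Finset.sum_const_zero, sub_zero, hy]
  have hcl : S.cl x = (k : ℝ) • S.tw y (fun i => (q i : ℝ)) 0 := by
    rw [hxdef]
    simp only [S.tw_eq, map_sub, map_nsmul, map_sum, map_zsmul, smul_sub, Finset.smul_sum,
      zero_smul, add_zero]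
    rw [Nat.cast_smul_eq_nsmul ℝ k]
    congr 1
    refine Finset.sum_congr rfl fun i _ => ?_
    rw [smul_smul, ← Int.cast_smul_eq_zsmul ℝ (z i)]
    congr 1
    exact_mod_cast (hz i).symm
  obtain ⟨e, he, hcar⟩ := hq mu x
  refine ⟨mu, e * k, e • x, Nat.mul_pos he hk, ?_, ?_, fun j _ => hcar j⟩
  · rw [map_nsmul, hx, smul_smul]
  · refine S.nef_cl mu _ ?_
    rw [map_nsmul, hcl, ← Nat.cast_smul_eq_nsmul ℝ e]
    exact S.nef_smul mu _ _ (Nat.cast_nonneg e) (S.nef_smul mu _ _ (Nat.cast_nonneg k) hqn)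

end NefGerm

end SNefModel

section SLong

open Filter Topology

/-- the orders of the nonzero functions of a space of finite dimension are bounded -/
theorem exists_order {r : ℕ} (per : Fin r → ℕ → ℂ) : ∃ l₀ : ℕ, ∀ c : Fin r → ℂ,
    (∀ m < l₀, ∑ k, c k * per k m = 0) → ∀ m, ∑ k, c k * per k m = 0 := by
  classical
  let f : ℕ → Submodule ℂ (Fin r → ℂ) := fun l =>
    ⨅ m : Fin l, LinearMap.ker (∑ k, (LinearMap.proj k : (Fin r → ℂ) →ₗ[ℂ] ℂ).smulRight (per k m))
  have hf : ∀ l c, c ∈ f l ↔ ∀ m < l, ∑ k, c k * per k m = 0 := by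
    intro l c
    simp only [f, Submodule.mem_iInf, LinearMap.mem_ker, LinearMap.sum_apply,
      LinearMap.smulRight_apply, LinearMap.proj_apply, smul_eq_mul]
    exact ⟨fun h m hm => h ⟨m, hm⟩, fun h m => h m m.2⟩
  have hanti : Antitone f := by
    intro a b hab c hc
    rw [hf] at hc ⊢
    exact fun m hm => hc m (by omega)
  obtain ⟨l₀, hl₀⟩ := IsArtinian.monotone_stabilizes (R := ℂ) (M := Fin r → ℂ)
    ⟨fun l => OrderDual.toDual (f l), fun a b hab => hanti hab⟩
  refine ⟨l₀, fun c hc m => ?_⟩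
  rcases lt_or_ge m l₀ with h | h
  · exact hc m h
  · have h1 : f l₀ = f (m + 1) := hl₀ (m + 1) (by omega)
    have h2 : c ∈ f (m + 1) := by rw [← h1, hf]; exact hc
    exact (hf _ _).1 h2 m (by omega)

namespace Long

variable {i d : ℕ} {r : ℕ} {per : Fin r → ℕ → ℂ} {Eff : Prop} (L : Long i d per Eff)

include L

/-- the coefficient which is given by a lift is zero below order `i` -/
theorem coef_succ {l : ℕ} (hl : l + 1 < i) (x : L.S l) (hx : L.On l 1 x) (a : L.A) :
    L.coef (l + 1) a = 0 := by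
  obtain ⟨y, hy, hy0⟩ := L.pow l hl
  refine tendsto_nhds_unique (tendsto_const_nhds (f := 𝓝[>] (0 : ℝ))) ?_
  refine (L.growth (L.ob l x) a).congr' ?_
  filter_upwards [Ioc_mem_nhdsGT (zero_lt_one' ℝ)] with τ hτ
  rw [← L.pair_mix l τ x y a hy0]
  exact (L.taylor l a τ _ hτ.1 hτ.2 (L.on_mix l τ x y hx hy)).symm

/-- no coefficient, no obstruction -/
theorem ob_zero (l : ℕ) (h : ∀ a, L.coef (l + 1) a = 0) (x : L.S l) (hx : L.On l 1 x) :
    L.ob l x = 0 := by
  apply L.serre
  intro a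
  rw [← L.taylor l a 1 x one_pos le_rfl hx, h]

/-- The first part: the section lifts modulo `t'^i`. -/
theorem coef_lt (l : ℕ) (hl : l < i) (a : L.A) : L.coef l a = 0 := by
  have h : ∀ l, l < i → (∃ x, L.On l 1 x) ∧ ∀ a, L.coef l a = 0 := by
    intro l
    induction l with
    | zero => exact fun _ => ⟨L.base, L.coef_zero⟩
    | succ l ih =>
      intro hl
      obtain ⟨⟨x, hx⟩, -⟩ := ih (by omega)
      have h1 := L.coef_succ hl x hx
      obtain ⟨y, hy⟩ := L.lift l x (L.ob_zero l h1 x hx)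
      exact ⟨⟨y, L.on_trunc l y (by rw [hy]; exact hx)⟩, h1⟩
  exact (h l hl).2 a

/-- **The second part**: a section which lifts to high order lifts to all orders. -/
theorem eff {l₀ : ℕ}
    (h₀ : ∀ c : Fin r → ℂ, (∀ m < l₀, ∑ k, c k * per k m = 0) → ∀ m, ∑ k, c k * per k m = 0)
    (hi : d * l₀ ≤ i) : Eff := by
  have hz : ∀ l a, L.coef l a = 0 := fun l a => L.vanish a (h₀ _ fun m hm =>
    L.order a (fun l h => L.coef_lt l h a) m
      (lt_of_lt_of_le (Nat.mul_lt_mul_of_pos_left hm L.d_pos) hi)) l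
  choose nx hnx using fun (l : ℕ) (x : {x : L.S l // L.On l 1 x}) =>
    L.lift l x.1 (L.ob_zero l (hz (l + 1)) x.1 x.2)
  obtain ⟨x0, hx0⟩ := L.base
  let x : ∀ l, {x : L.S l // L.On l 1 x} := fun l => Nat.rec ⟨x0, hx0⟩
    (fun l x => ⟨nx l x, L.on_trunc l _ (by rw [hnx l x]; exact x.2)⟩) l
  exact L.algebraize ⟨fun l => (x l).1, hx0, fun l => hnx l (x l)⟩

end Long

end SLong

section STransfer

namespace Refined

variable {n c j r : ℕ} {per : Fin r → ℕ → ℂ} {Eff : Prop} (R : Refined n c j per Eff)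

/-- the bound for the difference of the pull backs does not depend on the steps -/
theorem E_le (mu : R.Mo) (v : R.Dv) : R.E mu v ≤ R.d * c * R.mult v := by
  by_contra hcon
  rw [not_le] at hcon
  rcases le_or_gt 0 (R.EH mu v) with h | h
  · have h1 := R.E_le' mu v 1 one_pos
    linarith
  · have h2 : 0 < (R.E mu v - R.d * c * R.mult v) / (2 * -R.EH mu v) :=
      div_pos (by linarith) (by linarith)
    have h1 := R.E_le' mu v _ h2
    have h4 : (R.E mu v - R.d * c * R.mult v) / (2 * -R.EH mu v) * R.EH mu v =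
        - ((R.E mu v - R.d * c * R.mult v) / 2) := by
      have : R.EH mu v ≠ 0 := h.ne
      field_simp
    rw [h4] at h1
    linarith

/-- the section vanishes at no log canonical place -/
theorem ord_s_lc (v : R.Dv) (hv : R.Lc v) : R.ord R.mu0 (R.d * (j - c * n)) R.s v = 0 := by
  obtain ⟨w, h1, h2⟩ := R.lin v hv
  rw [R.ord_s v hv, h1, h2, sub_eq_zero]
  exact Finset.sum_congr rfl fun V _ => by rw [R.g_cmp]

theorem push_kill (mu : R.Mo) (k i : ℕ) (x : R.T R.mu0) (hx : (R.tau R.mu0)^[i] x = R.zero R.mu0) :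
    (R.tau mu)^[i] (R.push mu k x) = R.zero mu := by
  have h : ∀ i x, (R.tau mu)^[i] (R.push mu k x) = R.push mu k ((R.tau R.mu0)^[i] x) := by
    intro i
    induction i with
    | zero => intro x; rfl
    | succ i ih => intro x; rw [Function.iterate_succ_apply, Function.iterate_succ_apply,
        ← R.push_tau, ih]
  rw [h, hx, R.push_zero]

/-- TRANSFER: on every model there is a section which vanishes at no log canonical place -/
theorem transfer (hj : 2 * c * n + 2 < j) {l₀ : ℕ} (hl : 2 * c * n + l₀ < j) (mu : R.Mo) :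
    ∃ i x, 0 < i ∧ R.d * l₀ ≤ i ∧ (R.tau mu)^[i] x = R.zero mu ∧
      ∀ v, R.Lc v → R.ord mu i x v = 0 := by
  have hd := R.d_pos
  have hok : ∀ v, n * R.E mu v + 1 ≤ ((R.d * c * n + 1 : ℕ) : ℝ) * R.mult v := by
    intro v
    have h1 := mul_le_mul_of_nonneg_left (R.E_le mu v) (Nat.cast_nonneg (α := ℝ) n)
    have h2 : (1 : ℝ) ≤ R.mult v := by exact_mod_cast R.mult_pos v
    push_cast
    nlinarith
  have hle : R.d * c * n + 1 + 2 ≤ R.d * (j - c * n) := by
    have h1 : c * n + 3 ≤ j - c * n := by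
      have : 2 * c * n = c * n + c * n := by ring
      omega
    calc R.d * c * n + 1 + 2 = R.d * (c * n) + 3 := by ring
      _ ≤ R.d * (c * n) + R.d * 3 := by omega
      _ = R.d * (c * n + 3) := by ring
      _ ≤ _ := Nat.mul_le_mul_left _ h1
  have hle' : R.d * c * n + 1 + R.d * l₀ ≤ R.d * (j - c * n) := by
    have h1 : c * n + l₀ + 1 ≤ j - c * n := by
      have : 2 * c * n = c * n + c * n := by ring
      omega
    calc R.d * c * n + 1 + R.d * l₀ = R.d * (c * n + l₀) + 1 := by ring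
      _ ≤ R.d * (c * n + l₀) + R.d * 1 := by omega
      _ = R.d * (c * n + l₀ + 1) := by ring
      _ ≤ _ := Nat.mul_le_mul_left _ h1
  have hkill := R.push_kill mu (R.d * c * n + 1) _ _ R.s_kill
  have hk := R.no_emb mu (R.d * (j - c * n)) (R.d * c * n + 1) (R.push mu (R.d * c * n + 1) R.s)
    (by omega) hkill (fun V => R.push_cmp mu _ hok _ _ V R.s_kill (by omega))
  refine ⟨R.d * (j - c * n) - (R.d * c * n + 1), R.push mu (R.d * c * n + 1) R.s, by omega,
    by omega, hk, fun v hv => ?_⟩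
  have h1 := R.push_lc mu _ hok _ _ v hv R.s_kill hle hk (R.ord_s_lc v hv)
  have h2 := R.ord_nonneg mu _ _ v hk
  have h3 := mul_nonneg (Nat.cast_nonneg (α := ℝ) n) (R.E_nonneg mu v)
  linarith

include R in

/-- a long section gives an effective class on the generic fibre -/
theorem eff {l₀ : ℕ}
    (h₀ : ∀ c : Fin r → ℂ, (∀ m < l₀, ∑ k, c k * per k m = 0) → ∀ m, ∑ k, c k * per k m = 0)
    (hj : 2 * c * n + 2 < j) (hl : 2 * c * n + l₀ < j) : Eff := by
  rcases R.program with ⟨mu, h⟩ | ⟨mu, V, h⟩ | ⟨⟨Q⟩⟩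
  · obtain ⟨i, x, hi, hil, hx, hord⟩ := R.transfer hj hl mu
    obtain ⟨K⟩ := R.abundance mu h i x hi hx hord
    exact K.eff h₀ hil
  · obtain ⟨i, x, hi, -, hx, hord⟩ := R.transfer hj hl mu
    exact absurd (hord _ (R.cmp_lc V)) (R.con mu V h i x hi hx)
  · exact Q.false.elim

end Refined

namespace Transfer

variable {Lifts : ℕ → ℕ → Prop} {r : ℕ} {per : Fin r → ℕ → ℂ} {Eff : Prop}
  (S : Transfer Lifts per Eff)

/-- the orders of a section which can be lifted far grow at most linearly -/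
theorem exists_bound : ∃ C : ℕ, ∀ n j (s : S.Sec n j), C * n < j → ∀ a, S.ord n j s a ≤ C * n := by
  classical
  have h1 : ∀ p : Fin S.v × Fin S.v, ∃ C : ℕ, ∀ n j (s : S.Sec n j), C * n < j →
      S.ord n j s p.1 = 0 → S.ord n j s p.2 ≤ C * n := by
    rintro ⟨a, b⟩
    have h := S.conn a b
    induction h with
    | refl => exact ⟨0, fun n j s _ h0 => by simp only at h0 ⊢; omega⟩
    | tail _ hadj ih =>
      obtain ⟨C, hC⟩ := ih
      refine ⟨C + S.c * (1 + C), fun n j s hj h0 => ?_⟩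
      simp only at h0 hC ⊢
      have e1 : (C + S.c * (1 + C)) * n = C * n + S.c * (n + C * n) := by ring
      rw [e1] at hj ⊢
      have h2 := hC n j s (by omega) h0
      refine (S.step n j s _ _ hadj (by omega)).trans ?_
      have h3 := Nat.mul_le_mul_left S.c (Nat.add_le_add_left h2 n)
      omega
  choose C hC using h1
  obtain ⟨M, hM⟩ := (Set.finite_range C).bddAbove
  refine ⟨M, fun n j s hj b => ?_⟩
  obtain ⟨a, ha⟩ := S.start n j s
  have h2 := Nat.mul_le_mul_right n (hM ⟨(a, b), rfl⟩ : C (a, b) ≤ M)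
  exact (hC (a, b) n j s (by omega) ha).trans h2

include S in

/-- **Proposition S.** The lengths of the liftings grow at most linearly. -/
theorem bound (hE : ¬ Eff) : ∃ c : ℕ, ∀ n j, 0 < n → Lifts n j → j ≤ c * n := by
  obtain ⟨C, hC⟩ := S.exists_bound
  obtain ⟨l₀, h₀⟩ := exists_order per
  refine ⟨C + 2 * (S.c * (C + 1)) + 2 + l₀, fun n j hn hL => ?_⟩
  by_contra hj
  rw [not_le] at hj
  obtain ⟨s⟩ := S.sec n j hL
  have e1 : (C + 2 * (S.c * (C + 1)) + 2 + l₀) * n =
      C * n + 2 * (S.c * (C + 1)) * n + 2 * n + l₀ * n := by ring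
  have e3 : l₀ ≤ l₀ * n := Nat.le_mul_of_pos_right l₀ hn
  rw [e1] at hj
  have h1 := hC n j s (by omega)
  have e2 : 2 * (S.c * (C + 1)) * n = S.c * (C + 1) * n + S.c * (C + 1) * n := by ring
  obtain ⟨R⟩ := S.refine n j s C hn h1 (by omega)
  exact hE (R.eff h₀ (by omega) (by omega))

end Transfer

end STransfer

section SConeCY

open Filter Pool.Agent.H33.N1

variable {P : Type} [AddCommGroup P] (G : CY P)

theorem CY.tri : Tri G.T :=
  ⟨fun x y => G.lines.add_T x y, G.lines.symm12, G.lines.symm23⟩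

/-- `L^2 = 0`, `w.L.H > 0`, `w` is not negative on the curves with `L.C = 0`, and `w^2.L > 0`, or
`w^2.L = 0` and `w^3 ≥ 0`: then `w + n L` is nef for large `n` -/
theorem CY.nef_of [Module.Finite ℤ P] {Triv : (P → ℤ) → Prop} {L : P}
    (S : Primes G.T G.h G.Nef Triv G.H L) (hL : G.Nef L) (hsq : ∀ z, G.T L L z = 0) (hc : G.c L = 0)
    {w : P} (hw : 0 < G.T G.H w L) (hC : ∀ C, Triv C → 0 ≤ C w)
    (hq : 0 < G.T L w w ∨ G.T L w w = 0 ∧ 0 ≤ G.T w w w) : ∀ᶠ n : ℕ in atTop, G.Nef (w + n • L) := by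
  have t := G.tri
  have h0 : L ≠ 0 := by
    rintro rfl
    rw [t.zero3] at hw
    exact lt_irrefl _ hw
  have hl : 0 < G.T G.H G.H L := by
    have e : G.T G.H L L = 0 := by rw [t.s12, t.s23]; exact hsq G.H
    rcases (G.lines.nonneg _ _ _ G.lines.nef_H G.lines.nef_H hL).lt_or_eq with h | h
    · exact h
    · exact absurd (G.index L h.symm e.ge) h0
  have hH : 0 < G.T G.H G.H G.H := by
    rcases (G.lines.nonneg _ _ _ G.lines.nef_H G.lines.nef_H G.lines.nef_H).lt_or_eq with h | h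
    · exact h
    · have h1 := G.index G.H h.symm h.le
      rw [h1, t.s12, t.s23, ← h1] at hl
      rw [h1, t.zero3] at hl
      exact absurd hl (lt_irrefl _)
  exact S.nef_of t G.index hH (fun x y => G.lines.add_c x y) G.coh.rr hsq hc hl hw hC hq

end SConeCY

section SNuOne

open Filter Pool.Agent.H96.N1 Pool.Agent.H33.N1 Pool.Agent.H60.N1

namespace NuOne

variable {P : Type} [AddCommGroup P] {G : CY P} {L : P} (S : NuOne G L)

theorem cubic (G : CY P) : Cubic G.T :=
  ⟨fun x y a b => by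
    rw [G.lines.symm12 (x + y), G.lines.symm23 a, G.lines.add_T a b, G.lines.symm23 a b,
      G.lines.symm12 a x, G.lines.symm23 a b, G.lines.symm12 a y], G.lines.symm12, G.lines.symm23⟩

include S

/-- extensions of admissible classes -/
theorem ext {x : P} (h : ∃ k : ℤ, G.Nef (k • L + x) ∧ 0 < G.T (k • L + x) (k • L + x) (k • L + x)) :
    ∃ m : ℤ, 0 < m ∧ ∃ D, S.pencil.rho D = m • x ∧ S.pencil.Ext D := by
  rcases S.pencil.ext x h with h | ⟨⟨R⟩⟩
  · exact h
  · exact R.false.elim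

theorem ext_amp {x : P} (h : S.Amp x) :
    ∃ m : ℤ, 0 < m ∧ ∃ D, S.pencil.rho D = m • x ∧ S.pencil.Ext D := by
  apply S.ext ⟨0, ?_, ?_⟩
  · rw [zero_smul, zero_add]; exact S.amp_nef x h
  · rw [zero_smul, zero_add]; exact S.amp_big x h

/-- Numerical dimension one. -/
theorem false (hnef : G.Nef L) (hsq : ∀ z, G.T L L z = 0) (hcL : G.c L = 0)
    (hac : ∀ k : ℕ, 0 < k → ∀ i, G.h i (k • L) = 0)
    (h2 : ∀ y, G.Nef y → (∃ z, G.T y y z ≠ 0) → G.SA y) : False := by
  have := S.fin
  have hT := cubic G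
  have hl : 0 < G.T L G.H G.H := S.amp_L _ S.amp_H
  have hac' : ∀ k : ℤ, 0 < k → ∀ i, G.h i (k • L) = 0 := by
    intro k hk i
    have h := hac k.toNat (by omega) i
    rwa [← natCast_zsmul, Int.toNat_of_nonneg hk.le] at h
  -- the class `v`
  obtain ⟨mH, hmH, DH, hDH, hEH⟩ := S.ext_amp S.amp_H
  have hqH : 0 < G.T L (S.pencil.rho DH) (S.pencil.rho DH) := by
    rw [hDH, hT.smul2, hT.smul3]; positivity
  have hN4 := S.pencil.four hT hsq hEH hqH
  obtain ⟨-, κ, v, hκ, hZ⟩ := S.ends.exists_v hsq hN4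
  have hamp : ∀ x, S.Amp x → 0 ≤ G.T v L x := by
    intro x hx
    obtain ⟨m, hm, D, hD, hE⟩ := S.ext_amp hx
    exact S.pencil.qv_nonneg hT hsq hκ hZ hE hm hD (S.amp_L x hx)
  have hb0 : 0 ≤ G.T v L G.H := hamp _ S.amp_H
  have hTriv : ∀ d, S.Triv d → 0 ≤ d v := fun d hd => S.pencil.zero_triv κ v d hκ hZ hd
  -- case `v` in the kernel of `q`
  rcases hb0.eq_or_lt with hb | hb
  · have hnn : ∀ y, 0 ≤ G.T v L y := by
      intro y
      obtain ⟨m0, h0⟩ := S.amp_open y
      have h1 := hamp _ (h0 m0 le_rfl)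
      rwa [hT.add3, hT.smul3, ← hb, mul_zero, zero_add] at h1
    have hnull : ∀ y, G.T v L y = 0 := by
      intro y
      have h1 := hnn y
      have h3 := hnn (-y)
      have h4 : G.T v L (-y) = - G.T v L y := by
        have h := hT.smul3 (-1) v L y
        rwa [neg_one_smul, neg_one_mul] at h
      rw [h4] at h3
      omega
    exact S.pencil.null hT hsq S.ends hac' hκ hZ hnull (fun x hx => S.ext_amp hx) S.amp_L S.amp_H
      S.amp_open (fun z h1 h2 => G.index z h1 h2.ge)
  -- case `q(v, H) > 0`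
  have e1 : G.T L v v = G.T v L v := hT.symm12 _ _ _
  have e2 : G.T L v G.H = G.T v L G.H := hT.symm12 _ _ _
  have e3 : G.T L G.H v = G.T v L G.H := by rw [hT.symm23, e2]
  have e4 : G.T G.H L G.H = G.T L G.H G.H := hT.symm12 _ _ _
  have e5 : G.T G.H v L = G.T v L G.H := by rw [hT.symm12, hT.symm23]
  have hadd := S.primes.add
  have hTw : ∀ s t : ℤ, 0 ≤ s → 0 ≤ t → ∀ d, S.Triv d → 0 ≤ d (s • v + t • G.H) := by
    intro s t hs ht d hd
    have h3 : ∀ (n : ℤ) x, d (n • x) = n * d x := by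
      intro n x
      have h := map_zsmul (AddMonoidHom.mk' d (hadd d hd)) n x
      simpa using h
    rw [hadd d hd, h3, h3]
    have h4 := hTriv d hd
    have h5 := (S.primes.ample d hd).le
    positivity
  have hnefw : ∀ w, 0 < G.T w L G.H → (∀ d, S.Triv d → 0 ≤ d w) →
      (0 < G.T L w w ∨ G.T L w w = 0 ∧ 0 ≤ G.T w w w) →
      ∀ᶠ n : ℕ in atTop, G.Nef (w + n • L) := by
    intro w hw hd hq
    have h3 : 0 < G.T G.H w L := by rwa [hT.symm12, hT.symm23]
    exact G.nef_of S.primes hnef hsq hcL h3 hd hq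
  have hcube : ∀ (w : P) (n : ℕ), G.T (w + n • L) (w + n • L) (w + n • L) =
      3 * n * G.T L w w + G.T w w w := by
    intro w n
    have h3 := hT.pow3 hsq (n : ℤ) w
    rw [natCast_zsmul, add_comm] at h3
    exact h3
  have hext : ∀ s t : ℤ, 0 ≤ s → 0 < t → 0 < G.T L (s • v + t • G.H) (s • v + t • G.H) →
      0 < G.T (s • v + t • G.H) L G.H → ∃ m : ℤ, 0 < m ∧ ∃ D,
        S.pencil.rho D = m • (s • v + t • G.H) ∧ S.pencil.Ext D := by
    intro s t hs ht hq hw
    have h3 := hnefw _ hw (hTw s t hs ht.le) (Or.inl hq)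
    have h4 : ∀ᶠ n : ℕ in atTop, |G.T (s • v + t • G.H) (s • v + t • G.H) (s • v + t • G.H)| < n :=
      (tendsto_natCast_atTop_atTop (R := ℤ)).eventually_gt_atTop _
    obtain ⟨n, hn, hn'⟩ := (h3.and h4).exists
    apply S.ext ⟨n, ?_, ?_⟩
    · rw [natCast_zsmul, add_comm]; exact hn
    · rw [hT.pow3 hsq]
      have h5 := neg_abs_le (G.T (s • v + t • G.H) (s • v + t • G.H) (s • v + t • G.H))
      nlinarith
  have hC0 := S.pencil.qvv_nonneg hT hsq hκ hZ hl hb.le hext
  have hext' : ∀ s t : ℤ, 0 ≤ s → 0 < t → ∃ m : ℤ, 0 < m ∧ ∃ D,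
        S.pencil.rho D = m • (s • v + t • G.H) ∧ S.pencil.Ext D := by
    intro s t hs ht
    apply hext s t hs ht
    · simp only [hT.add2, hT.add3, hT.smul2, hT.smul3, e1, e2, e3]
      have h3 : 0 ≤ s * (s * G.T v L v) := by positivity
      have h4 : 0 ≤ s * (t * G.T v L G.H) := by positivity
      have h5 : 0 < t * (t * G.T L G.H G.H) := by positivity
      have h6 : 0 ≤ t * (s * G.T v L G.H) := by positivity
      linarith
    · simp only [hT.add, hT.smul1, e4]
      positivity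
  have haddc : ∀ x y, G.c (x + y) = G.c x + G.c y := fun x y => G.lines.add_c x y
  have hcn : ∀ (n : ℕ) (w : P), G.c (w + n • L) = G.c w := by
    intro n w
    have h := map_nsmul (AddMonoidHom.mk' G.c haddc) n L
    have h3 : G.c (n • L) = 0 := by
      have h4 : G.c (n • L) = n • G.c L := by simpa using h
      rw [h4, hcL, smul_zero]
    rw [haddc, h3, add_zero]
  have hcv : G.c v = 0 := by
    refine S.pencil.chern hT hsq hκ hZ hl hb hC0 (fun s hs => ?_) haddc hcL (fun s hs => ?_)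
    · have h3 := hext' s 1 hs.le one_pos
      rwa [one_smul] at h3
    · have h3 : 0 < G.T L (s • v + (1 : ℤ) • G.H) (s • v + (1 : ℤ) • G.H) := by
        simp only [hT.add2, hT.add3, hT.smul2, hT.smul3, e1, e2, e3]
        have h3 : 0 ≤ s * (s * G.T v L v) := by positivity
        have h4 : 0 ≤ s * (1 * G.T v L G.H) := by positivity
        have h6 : 0 ≤ 1 * (s * G.T v L G.H) := by positivity
        linarith
      have h4 : 0 < G.T (s • v + (1 : ℤ) • G.H) L G.H := by
        simp only [hT.add, hT.smul1, e4]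
        positivity
      obtain ⟨n, hn⟩ := (hnefw _ h4 (hTw s 1 hs.le zero_le_one) (Or.inl h3)).exists
      have h5 := G.lines.miyaoka _ hn
      rwa [hcn, one_smul] at h5
  rcases hC0.eq_or_lt with hC | hC
  · -- `q(v, v) = 0`
    have hv3 := S.pencil.cube hT hsq hκ hZ hl hb hC.symm hext'
    have h3 : ∀ᶠ n : ℕ in atTop, G.Nef (v + n • L) :=
      hnefw v hb hTriv (Or.inr ⟨by rw [e1]; exact hC.symm, hv3⟩)
    rcases hv3.eq_or_lt with h0 | h0
    · have h4 : ∀ᶠ n : ℕ in atTop, |G.T v v G.H| < n :=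
        (tendsto_natCast_atTop_atTop (R := ℤ)).eventually_gt_atTop _
      obtain ⟨n, ⟨hn, hn1⟩, hn2⟩ := ((h3.and ((tendsto_add_atTop_nat 1).eventually h3)).and h4).exists
      have hsqH : ∀ k : ℕ, G.T (v + k • L) (v + k • L) G.H = G.T v v G.H + 2 * k * G.T v L G.H := by
        intro k
        rw [← natCast_zsmul]
        simp only [hT.add, hT.add2, hT.smul1, hT.smul2, hsq, e2]
        ring
      have hpos : ∀ k : ℕ, n ≤ k → G.T (v + k • L) (v + k • L) G.H ≠ 0 := by
        intro k hk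
        rw [hsqH]
        have h5 := neg_abs_le (G.T v v G.H)
        have h6 : (n : ℤ) ≤ k := by exact_mod_cast hk
        apply ne_of_gt
        nlinarith
      have hM := h2 _ hn ⟨_, hpos n le_rfl⟩
      have hM1 := h2 _ hn1 ⟨_, hpos (n + 1) (Nat.le_succ n)⟩
      have hML : v + n • L + L = v + (n + 1) • L := by rw [succ_nsmul, add_assoc]
      obtain ⟨k, hk, hne⟩ := S.surf (v + n • L) hM (by rw [hML]; exact hM1)
        (by rw [hcube, e1, ← hC, ← h0]; ring)
        (by
          rw [← natCast_zsmul]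
          have h7 : G.T v L L = 0 := by rw [hT.symm12, hT.symm23]; exact hsq v
          have h8 : G.T L v L = 0 := by rw [hT.symm12]; exact h7
          have h9 : G.T v v L = 0 := by rw [hT.symm23]; exact hC.symm
          simp only [hT.add, hT.add2, hT.smul1, hT.smul2, hsq, h7, h8, h9]
          ring)
        (hpos n le_rfl)
      exact hne (hac k hk 0)
    · obtain ⟨n, hn⟩ := h3.exists
      apply S.rigid _ hn
      · rw [hcube, e1, ← hC]; linarith
      · rw [hcn, hcv]
  · -- `q(v, v) > 0`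
    have h3 := hnefw v hb hTriv (Or.inl (by rw [e1]; exact hC))
    have h4 : ∀ᶠ n : ℕ in atTop, |G.T v v v| < n :=
      (tendsto_natCast_atTop_atTop (R := ℤ)).eventually_gt_atTop _
    obtain ⟨n, hn, hn'⟩ := (h3.and h4).exists
    apply S.rigid _ hn
    · rw [hcube, e1]
      have h5 := neg_abs_le (G.T v v v)
      nlinarith
    · rw [hcn, hcv]

end NuOne

end SNuOne

section SNuTwo

open Pool.Agent.H96.N1

namespace NuTwo

variable {P : Type} [AddCommGroup P] {G : CY P} {L : P} (S : NuTwo G L)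

include S

/-- Numerical dimension two. -/
theorem false (_ : G.Nef L) (hL3 : G.T L L L = 0) (hcL : G.c L = 0)
    (hac : ∀ k : ℕ, 0 < k → ∀ i, G.h i (k • L) = 0) : False := by
  have hT := NuOne.cubic G
  have hE : ¬ ∃ k : ℕ, 0 < k ∧ G.h 0 (k • L) ≠ 0 := by
    rintro ⟨k, hk, h⟩
    exact h (hac k hk 0)
  -- the lengths
  choose c hc using fun p => (S.transfer p).bound hE
  have hlen : ∀ n : ℕ, 0 < n → 0 ≤ ∑ p, (S.len p n : ℤ) ∧
      ∑ p, (S.len p n : ℤ) ≤ (∑ p, (c p * S.C : ℤ)) * n ^ 3 := by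
    intro n hn
    refine ⟨Finset.sum_nonneg fun p _ => by positivity, ?_⟩
    rw [Finset.sum_mul]
    apply Finset.sum_le_sum
    intro p _
    have h1 := S.len_le p n (c p * n) hn fun j hj => hc p n j hn hj
    have h2 := S.gen_le p n hn
    have h3 : S.len p n ≤ c p * n * (S.C * n ^ 2) := h1.trans (Nat.mul_le_mul_left _ h2)
    have h4 : ((S.len p n : ℕ) : ℤ) ≤ c p * n * (S.C * n ^ 2) := by exact_mod_cast h3
    calc ((S.len p n : ℕ) : ℤ) ≤ c p * n * (S.C * n ^ 2) := h4
      _ = c p * S.C * n ^ 3 := by ring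
  obtain ⟨hN4, hcN⟩ := two_of_lengths (by exact_mod_cast S.g_pos) S.rr hlen
  -- an extension of `H`
  have hH3 : 0 < G.T G.H G.H G.H := by
    rcases (G.lines.nonneg _ _ _ G.lines.nef_H G.lines.nef_H G.lines.nef_H).lt_or_eq with h | h
    · exact h
    · have h1 := G.index G.H h.symm h.le
      have h2 := S.pos
      rw [h1] at h2
      have h3 : G.T L L (0 : P) = 0 := by
        have h := hT.smul3 0 L L 0
        rwa [zero_smul, zero_mul] at h
      rw [h3] at h2
      exact absurd h2 (lt_irrefl _)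
  rcases S.curve.ext G.H ⟨0, by rw [zero_smul, zero_add]; exact G.lines.nef_H,
    by rw [zero_smul, zero_add]; exact hH3⟩ with ⟨m, hm, D, hD, hExt⟩ | ⟨⟨R⟩⟩
  · have h := S.curve.two hT hL3 hcL S.pos hExt hm hD hN4
    linarith
  · exact R.false.elim

end NuTwo

end SNuTwo

section SLocal

section

variable {P Lam : Type} [AddCommGroup P] [AddCommGroup Lam] {g : Germ P Lam} {L : P}
  {NefG : P → Prop} {Int : Prop} (A : At g NefG Int)

/-- the standard extension -/
def At.std (hI : Int) (m : ℕ) (L : P) : Ext g L m where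
  mu := A.mu0
  x := m • A.lift L
  rho := by rw [map_nsmul, A.rho_lift]
  car := by
    intro j _
    rw [smul_smul, ← map_nsmul]
    exact A.car_int _ hI

/-- multiples of extensions -/
def Ext.mul {m : ℕ} (E : Ext g L m) (c : ℕ) (hc : 0 < c) : Ext g L (c * m) where
  mu := E.mu
  x := c • E.x
  rho := by rw [map_nsmul, E.rho, smul_smul]
  car := by
    intro j hj
    rw [smul_smul]
    exact E.car _ (Nat.mul_pos hj hc)

/-- equality of the multiplicities -/
def Ext.cast {m m' : ℕ} (E : Ext g L m) (h : m = m') : Ext g L m' where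
  mu := E.mu
  x := E.x
  rho := h ▸ E.rho
  car := E.car

include A in

lemma At.exists_nef (hL : NefG L) : ∃ (k : ℕ) (E : Ext g L k), 0 < k ∧ g.Nef E.mu E.x := by
  obtain ⟨mu, k, x, hk, hx, hn, hcar⟩ := A.nef.nef L hL _ (A.rho_lift L) A.qfac
  exact ⟨k, ⟨mu, x, hx, hcar⟩, hk, hn⟩

end

/-- A family with given extensions at the exceptional divisors. -/
theorem Models.exists_family {P : Type} [AddCommGroup P] {B : Type} {Int : B → Prop}
    {NefG : P → Prop} (M : Models B Int NefG) (L : P)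
    (hfin : {b | ¬ (Int b ∧ (M.at' b).NefStd L)}.Finite)
    (Q : ∀ b m, Ext (M.germ b) L m → Prop)
    (hQ : ∀ b m E c (hc : 0 < c), Q b m E → Q b (c * m) (E.mul c hc))
    (hex : ∀ b, ∃ (k : ℕ) (E : Ext (M.germ b) L k), 0 < k ∧ Q b k E)
    (hstd : ∀ b (hI : Int b), (M.at' b).NefStd L →
      ∀ m, 0 < m → Q b m ((M.at' b).std hI m L)) :
    ∃ F : Family M L, ∀ b, Q b F.m (F.ext b) := by
  classical
  choose k E hk hE using hex
  let S : Finset B := hfin.toFinset
  have hS : ∀ b, b ∉ S → Int b ∧ (M.at' b).NefStd L := by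
    intro b hb
    by_contra hcon
    exact hb (hfin.mem_toFinset.2 hcon)
  let m : ℕ := ∏ b ∈ S, k b
  have hm : 0 < m := Finset.prod_pos fun b _ => hk b
  have hdvd : ∀ b ∈ S, ∃ c : ℕ, 0 < c ∧ c * k b = m := by
    intro b hb
    obtain ⟨c, hc⟩ := Finset.dvd_prod_of_mem k hb
    refine ⟨c, ?_, by rw [mul_comm]; exact hc.symm⟩
    rcases Nat.eq_zero_or_pos c with h0 | h0
    · exfalso
      rw [h0, mul_zero] at hc
      have : m = 0 := hc
      omega
    · exact h0
  have hch : ∀ b, ∃ F : Ext (M.germ b) L m, Q b m F ∧ (b ∉ S → F.Std (M.at' b)) := by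
    intro b
    by_cases hb : b ∈ S
    · obtain ⟨c, hc, hcm⟩ := hdvd b hb
      have h1 := hQ b _ (E b) c hc (hE b)
      have h2 : ∃ F : Ext (M.germ b) L m, Q b m F := by
        rw [← hcm]
        exact ⟨_, h1⟩
      obtain ⟨F, hF⟩ := h2
      exact ⟨F, hF, fun h => absurd hb h⟩
    · exact ⟨(M.at' b).std (hS b hb).1 m L, hstd b (hS b hb).1 (hS b hb).2 m hm,
        fun _ => ⟨(hS b hb).1, rfl, rfl, (hS b hb).2⟩⟩
  choose F hF hF' using hch
  exact ⟨⟨m, hm, S, F, hF'⟩, hF⟩

end SLocal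

section SJoin

section

variable {P : Type} [AddCommGroup P]

/-- nef, not semiample classes of a threefold -/
theorem CY.bad (Y : CY P) (L : P) (hL : Y.Nef L) (hs : ¬ Y.SA L) :
    Bad Y L := by
  obtain ⟨hT, hc, hac⟩ := Y.not_sa L hL hs
  refine ⟨hL, hT, hc, ?_⟩
  intro k hk i
  have h3 := hac (k : ℤ) i (by omega)
  rwa [natCast_zsmul] at h3

lemma CY.T_smul (Y : CY P) (x y z : P) (k : ℕ) : Y.T x y (k • z) = (k : ℤ) * Y.T x y z := by
  have h := (Y.lines.add_T x y).zsmul (k : ℤ) z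
  rw [natCast_zsmul] at h
  rw [h, smul_eq_mul]

lemma CY.c_smul (Y : CY P) (x : P) (k : ℕ) : Y.c (k • x) = (k : ℤ) * Y.c x := by
  have h := Y.lines.add_c.zsmul (k : ℤ) x
  rw [natCast_zsmul] at h
  rw [h, smul_eq_mul]

lemma CY.two_smul (Y : CY P) (L : P) (k : ℕ) (z : P) : Y.T (k • L) (k • L) z =
    (k : ℤ) ^ 2 * Y.T L L z := by
  rw [Y.lines.symm23, Y.T_smul, Y.lines.symm23 (k • L) z L, Y.lines.symm12 (k • L) L z,
    Y.lines.symm23 L (k • L) z, Y.T_smul, Y.lines.symm23 L z L]
  ring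

lemma Bad.mul {Y : CY P} {L : P} (h : Bad Y L) (k : ℕ) (hk : 0 < k) :
    Bad Y (k • L) where
  nef := by
    have := (Y.lines.nef_mul (k : ℤ) L (by omega)).2 h.nef
    rwa [natCast_zsmul] at this
  cube := by rw [Y.two_smul, Y.T_smul, h.cube, mul_zero, mul_zero]
  c := by rw [Y.c_smul, h.c, mul_zero]
  acyclic := by
    intro j hj i
    rw [smul_smul]
    exact h.acyclic _ (Nat.mul_pos hj hk) i

end

namespace Setup

variable {P : Type} [AddCommGroup P] {X : CY P} (S : Setup X)

/-- a family of nef extensions -/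
lemma exists_nef {L : P} (hL : Bad S.G L) : ∃ F : Family S.models L, ∀ b, (F.ext b).Nef :=
  S.models.exists_family L (S.interior.finite L hL.nef)
    (fun _ _ E => E.Nef)
    (fun b _ _ _ _ hE => (S.models.at' b).nef_nsmul _ _ _ hE)
    (fun b => (S.models.at' b).exists_nef hL.nef)
    (fun b _ hN _ _ => (S.models.at' b).nef_nsmul _ _ _ hN)

/-- numerical dimension two -/
theorem main_two {L : P} (hL : Bad S.G L) (hT : ∃ z, S.G.T L L z ≠ 0) : False := by
  obtain ⟨F, hF⟩ := S.exists_nef hL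
  obtain ⟨N⟩ := S.two L hL hT F hF
  have hb := hL.mul F.m F.m_pos
  exact N.false hb.nef hb.cube hb.c hb.acyclic

include S in

/-- numerical dimension two, on the very general fibre -/
theorem semiample_two (y : P) (hy : S.G.Nef y) (hT : ∃ z, S.G.T y y z ≠ 0) :
    S.G.SA y := by
  by_contra hs
  exact S.main_two (S.G.bad y hy hs) hT

/-- numerical dimension one -/
theorem main_one {L : P} (hL : Bad S.G L) (hT : ∀ z, S.G.T L L z = 0) : False := by
  obtain ⟨F, hF⟩ := S.exists_nef hL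
  obtain ⟨N⟩ := S.one L hL hT F hF
  have hb := hL.mul F.m F.m_pos
  exact N.false hb.nef (fun z => by rw [CY.two_smul, hT, mul_zero]) hb.c hb.acyclic
    (fun y hy hyy => S.semiample_two y hy hyy)

include S in

theorem main (L : P) (hL : X.Nef L) : X.SA L := by
  by_contra hs
  obtain ⟨hT, hc, hac⟩ := X.not_sa L hL hs
  have hG : ∀ k : ℕ, 0 < k → ∀ i, S.G.h i (k • L) = 0 := by
    intro k hk i
    have h2 := S.semi i (k • L)
    have h3 := hac (k : ℤ) i (by omega)
    rw [natCast_zsmul] at h3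
    rw [h3] at h2
    exact Nat.le_zero.1 h2
  -- the Riemann-Roch theorem on the very general fibre
  have hrr : ∀ k : ℕ, 0 < k → 2 * ((k : ℤ) ^ 3 * S.G.T L L L) + (k : ℤ) * S.G.c L = 0 := by
    intro k hk
    have h := S.G.coh.rr (k • L)
    rw [hG k hk 0, hG k hk 1, hG k hk 2, hG k hk 3, CY.two_smul, CY.T_smul, CY.c_smul] at h
    push_cast at h
    linarith [h]
  have h1 := hrr 1 one_pos
  have h2' := hrr 2 two_pos
  push_cast at h1 h2'
  have hb : Bad S.G L := ⟨S.nef L hL, by linarith, by linarith, hG⟩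
  by_cases hT : ∃ z, S.G.T L L z ≠ 0
  · exact S.main_two hb hT
  · push Not at hT
    exact S.main_one hb hT

end Setup

end SJoin

section SSplit

/-- the restriction of the line bundle to `K` is torsion -/
theorem Flat.torsion {G : Type} [Group G] [Fintype G] (F : Flat G) : Fintype.card G • F.p = 0 := by
  have h1 : ∀ w, ∑ g, F.actW g w = 0 := by
    intro w
    refine F.inv _ fun g => ?_
    have h := map_sum (AddMonoidHom.mk' (F.actW g) (F.add_W g)) (fun x => F.actW x w) Finset.univ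
    refine h.trans ?_
    calc ∑ x, F.actW g (F.actW x w) = ∑ x, F.actW (g * x) w :=
          Finset.sum_congr rfl fun x _ => (F.mul_W g x w).symm
      _ = ∑ x, F.actW x w := Fintype.sum_equiv (Equiv.mulLeft g) _ _ fun x => rfl
  have h2 : ∀ v, ∑ g, F.actV g v = 0 := by
    intro v
    obtain ⟨w, rfl⟩ := F.r_onto v
    have h := map_sum (AddMonoidHom.mk' F.r F.add_r) (fun x => F.actW x w) Finset.univ
    calc ∑ g, F.actV g (F.r w) = ∑ g, F.r (F.actW g w) :=
          Finset.sum_congr rfl fun g _ => (F.r_act g w).symm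
      _ = F.r (∑ g, F.actW g w) := h.symm
      _ = 0 := by rw [h1]; exact map_zero (AddMonoidHom.mk' F.r F.add_r)
  have h3 := F.rigid h2 F.p
  rw [Finset.sum_congr rfl fun g _ => F.p_inv g] at h3
  simpa using h3

/-- nef classes on `X` are semiample if this is true for the irreducible factors -/
theorem Split.semiample (D : Split) (h : ∀ i y, D.nefY i y → D.saY i y) (x : D.P)
    (hx : D.Nef x) : D.SA x := by
  refine D.descent x (fun i => h i _ (D.nef_res x i hx)) ?_
  obtain ⟨F, hF⟩ := D.flat x hx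
  exact hF _ Fintype.card_pos F.torsion

end SSplit

section SFinal

/-- nef classes on Calabi-Yau threefolds are semiample -/
theorem Threefold.semiample {P : Type} [AddCommGroup P] (Y : Threefold P) (x : P)
    (hx : Y.X.Nef x) : Y.X.SA x := by
  rcases Nat.eq_zero_or_pos Y.h21 with h | h
  · by_contra hs
    have := Pool.Agent.H76.S.Last.le (Y.last h x hx hs)
    omega
  · exact (Y.setup h).main x hx

end SFinal

end Pool.Agent.H48.CYN
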